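import Pool.Agent.V11271.LU.Cnt

set_option autoImplicit false
set_option linter.unusedSectionVars false
set_option maxHeartbeats 2000000

/-!
# The transform of a box
-/

open Complex Filter Topology Set MeasureTheory Metric
open scoped ComplexConjugate

namespace Pool.Agent.V11271.LU

open Pool.Agent.Y23 Pool.Agent.Y23.G

/-- the box -/
noncomputable def bx (b : ℝ) (x : ℝ) : ℂ := (Icc (-b) b).indicator (fun _ => (1 : ℂ)) x

lemma bx_Fa {b : ℝ} : Fa b (bx b) := by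
  constructor
  · have : bx b = (Icc (-b) b).indicator (fun _ => (1 : ℂ)) := rfl
    rw [this]
    exact memLp_indicator_const 2 measurableSet_Icc 1 (Or.inr (by rw [Real.volume_Icc]; exact ENNReal.ofReal_ne_top))
  · intro x hx
    unfold bx
    rw [indicator_of_notMem]
    intro h
    have := abs_le.mpr ⟨h.1, h.2⟩
    linarith

lemma TT_bx {b : ℝ} (hb : 0 < b) (w : ℂ) : TT (bx b) w = ∫ x in (-b)..b, cexp (w * x) := by
  unfold TT
  rw [intervalIntegral.integral_of_le (by linarith), ← integral_Icc_eq_integral_Ioc,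
    ← integral_indicator measurableSet_Icc]
  congr 1
  funext x
  unfold bx
  by_cases hx : x ∈ Icc (-b) b
  · rw [indicator_of_mem hx, indicator_of_mem hx, one_mul]
  · rw [indicator_of_notMem hx, indicator_of_notMem hx, zero_mul]

lemma TT_bx_norm {b : ℝ} (hb : 0 < b) (w : ℂ) : ‖TT (bx b) w‖ ≤ 2 * b * Real.exp (b * |w.re|) := by
  rw [TT_bx hb]
  have h := intervalIntegral.norm_integral_le_of_norm_le_const (a := -b) (b := b) (f := fun x : ℝ => cexp (w * x))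
    (C := Real.exp (b * |w.re|)) (fun x hx => by
      rw [uIoc_of_le (by linarith)] at hx
      rw [Complex.norm_exp, Complex.re_mul_ofReal]
      apply Real.exp_le_exp.mpr
      have h1 : |x| ≤ b := abs_le.mpr ⟨hx.1.le, hx.2⟩
      calc w.re * x ≤ |w.re * x| := le_abs_self _
        _ = |w.re| * |x| := abs_mul _ _
        _ ≤ |w.re| * b := by gcongr
        _ = b * |w.re| := by ring)
  refine h.trans (le_of_eq ?_)
  rw [abs_of_nonneg (show (0 : ℝ) ≤ b - -b by linarith)]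
  ring

lemma TT_bx_norm2 {b : ℝ} (hb : 0 < b) (w : ℂ) : ‖w‖ * ‖TT (bx b) w‖ ≤ 2 * Real.exp (b * |w.re|) := by
  by_cases hw : w = 0
  · rw [hw, norm_zero, zero_mul]
    positivity
  rw [← norm_mul, TT_bx hb]
  have e : w * ∫ x in (-b)..b, cexp (w * x) = cexp (w * b) - cexp (w * (-b : ℝ)) := by
    have h := integral_exp_mul_complex (a := -b) (b := b) hw
    rw [h, mul_div_cancel₀ _ hw]
  rw [e]
  refine (norm_sub_le _ _).trans ?_
  rw [Complex.norm_exp, Complex.norm_exp, Complex.re_mul_ofReal, Complex.re_mul_ofReal]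
  have h1 : w.re * b ≤ b * |w.re| := by
    have := le_abs_self w.re
    nlinarith
  have h2 : w.re * -b ≤ b * |w.re| := by
    have := neg_abs_le w.re
    nlinarith
  have h3 := Real.exp_le_exp.mpr h1
  have h4 := Real.exp_le_exp.mpr h2
  linarith

lemma TT_bx_sq {b : ℝ} (hb : 0 < b) (w : ℂ) :
    ‖TT (bx b) w‖ ^ 2 ≤ Real.exp (2 * b * |w.re|) * (8 * b ^ 2 / (1 + (b * w.im) ^ 2)) := by
  obtain ⟨E, hE⟩ : ∃ E : ℝ, E = Real.exp (b * |w.re|) := ⟨_, rfl⟩
  have hE0 : 0 < E := by rw [hE]; positivity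
  have h1 := TT_bx_norm hb w
  have h2 := TT_bx_norm2 hb w
  rw [← hE] at h1 h2
  have e : Real.exp (2 * b * |w.re|) = E ^ 2 := by
    rw [hE, ← Real.exp_nat_mul]
    congr 1
    push_cast
    ring
  rw [e]
  have h3 : |w.im| * ‖TT (bx b) w‖ ≤ 2 * E := by
    refine le_trans ?_ h2
    gcongr
    exact Complex.abs_im_le_norm w
  obtain ⟨N, hN⟩ : ∃ N : ℝ, N = ‖TT (bx b) w‖ := ⟨_, rfl⟩
  rw [← hN] at h1 h3 ⊢
  have hN0 : 0 ≤ N := by rw [hN]; exact norm_nonneg _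
  rw [mul_div_assoc', le_div_iff₀ (by positivity)]
  have h4 : N ^ 2 ≤ 4 * b ^ 2 * E ^ 2 := by
    calc N ^ 2 ≤ (2 * b * E) ^ 2 := by gcongr
      _ = _ := by ring
  have h5 : w.im ^ 2 * N ^ 2 ≤ 4 * E ^ 2 := by
    calc w.im ^ 2 * N ^ 2 = (|w.im| * N) ^ 2 := by rw [mul_pow, sq_abs]
      _ ≤ (2 * E) ^ 2 := by gcongr
      _ = _ := by ring
  calc N ^ 2 * (1 + (b * w.im) ^ 2) = N ^ 2 + b ^ 2 * (w.im ^ 2 * N ^ 2) := by ring
    _ ≤ 4 * b ^ 2 * E ^ 2 + b ^ 2 * (4 * E ^ 2) := by gcongr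
    _ = E ^ 2 * (8 * b ^ 2) := by ring

lemma TT_bx_strip {b : ℝ} (hb : 0 < b) (hb3 : b ≤ 1 / 3) {w : ℂ} (hw : |w.re| ≤ 1) :
    ‖TT (bx b) w‖ ^ 2 ≤ 16 * b ^ 2 / (1 + (b * w.im) ^ 2) := by
  refine (TT_bx_sq hb w).trans ?_
  have h1 : Real.exp (2 * b * |w.re|) ≤ 2 := by
    have h2 : 2 * b * |w.re| ≤ 2 / 3 := by
      have := abs_nonneg w.re
      nlinarith
    have h3 : Real.exp (2 / 3) ≤ 2 := by
      rw [← Real.le_log_iff_exp_le (by norm_num)]
      have := Real.log_two_gt_d9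
      linarith
    exact (Real.exp_le_exp.mpr h2).trans h3
  calc Real.exp (2 * b * |w.re|) * (8 * b ^ 2 / (1 + (b * w.im) ^ 2)) ≤ 2 * (8 * b ^ 2 / (1 + (b * w.im) ^ 2)) := by
        gcongr
    _ = _ := by ring

lemma TT_bx_line {b : ℝ} (hb : 0 < b) (v : ℝ) : ‖TT (bx b) (v * I)‖ ^ 2 ≤ 8 * b ^ 2 / (1 + (b * v) ^ 2) := by
  have h := TT_bx_sq hb (v * I)
  simpa using h

lemma TT_bx_low {b : ℝ} (hb : 0 < b) {v : ℝ} (hv : |v| ≤ 1 / b) : b ^ 2 ≤ ‖TT (bx b) (v * I)‖ ^ 2 := by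
  have h1 : b ≤ ‖TT (bx b) (v * I)‖ := by
    refine le_trans ?_ (Complex.re_le_norm _)
    rw [TT_bx hb]
    have hint : IntervalIntegrable (fun x : ℝ => cexp (v * I * x)) volume (-b) b := by
      apply Continuous.intervalIntegrable
      fun_prop
    have e : (∫ x in (-b)..b, cexp (v * I * x)).re = ∫ x in (-b)..b, Real.cos (v * x) := by
      have h := Complex.reCLM.intervalIntegral_comp_comm hint
      rw [Complex.reCLM_apply] at h
      rw [← h]
      congr 1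
      funext x
      rw [Complex.reCLM_apply]
      have : (v : ℂ) * I * x = ((v * x : ℝ) : ℂ) * I := by push_cast; ring
      rw [this, Complex.exp_ofReal_mul_I_re]
    rw [e]
    have h2 : ∫ x in (-b)..b, (1 / 2 : ℝ) ≤ ∫ x in (-b)..b, Real.cos (v * x) := by
      apply intervalIntegral.integral_mono_on (by linarith)
      · exact intervalIntegrable_const
      · apply Continuous.intervalIntegrable
        fun_prop
      · intro x hx
        have h3 : |v * x| ≤ 1 := by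
          rw [abs_mul]
          have h4 : |x| ≤ b := abs_le.mpr ⟨hx.1, hx.2⟩
          calc |v| * |x| ≤ 1 / b * b := by gcongr
            _ = 1 := by field_simp
        have h4 := Real.one_sub_sq_div_two_le_cos (x := v * x)
        have h5 : (v * x) ^ 2 ≤ 1 := by
          rw [← sq_abs]
          exact pow_le_one₀ (abs_nonneg _) h3
        linarith
    refine le_trans (le_of_eq ?_) h2
    rw [intervalIntegral.integral_const, smul_eq_mul]
    ring
  exact pow_le_pow_left₀ hb.le h1 2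

lemma TT_bx_real {b : ℝ} (hb : 0 < b) (r : ℝ) : ∃ R : ℝ, 0 ≤ R ∧ TT (bx b) r = R := by
  refine ⟨∫ x in (-b)..b, Real.exp (r * x), intervalIntegral.integral_nonneg (by linarith) fun x _ => by positivity, ?_⟩
  rw [TT_bx hb, ← intervalIntegral.integral_ofReal]
  congr 1
  funext x
  push_cast
  rfl

lemma pole_nonneg {b : ℝ} (hb : 0 < b) : 0 ≤ (TT (bx b) (1 / 2) * conj (TT (bx b) (-(1 / 2)))).re := by
  obtain ⟨R1, h1, e1⟩ := TT_bx_real hb (1 / 2)
  obtain ⟨R2, h2, e2⟩ := TT_bx_real hb (-(1 / 2))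
  have a1 : (((1 / 2 : ℝ)) : ℂ) = 1 / 2 := by push_cast; rfl
  have a2 : ((-(1 / 2 : ℝ) : ℝ) : ℂ) = -(1 / 2) := by push_cast; rfl
  rw [a1] at e1
  rw [a2] at e2
  rw [e1, e2, Complex.conj_ofReal, ← Complex.ofReal_mul, Complex.ofReal_re]
  positivity

section

variable [L : LFun]

lemma bx_Dom {b : ℝ} (hb : 0 < b) (hb3 : b ≤ 1 / 3) : Dom (bx b) := by
  refine Summable.of_nonneg_of_le (fun ρ => by positivity) (fun ρ => ?_) ((zsummable 0).mul_left 16)
  have h1 := TT_bx_strip hb hb3 (w := (ρ : ℂ) - 1 / 2) (half_re ρ)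
  have e : ((ρ : ℂ) - 1 / 2).im = (ρ : ℂ).im := by simp
  rw [e] at h1
  have h2 : 16 * b ^ 2 / (1 + (b * (ρ : ℂ).im) ^ 2) ≤ 16 * (1 / (1 + ((ρ : ℂ).im - 0) ^ 2)) := by
    rw [mul_one_div, div_le_div_iff₀ (by positivity) (by positivity)]
    have h3 : b ^ 2 ≤ 1 := by nlinarith
    nlinarith [sq_nonneg (ρ : ℂ).im, mul_nonneg (sq_nonneg b) (sq_nonneg (ρ : ℂ).im)]
  calc (mu ρ : ℝ) * ‖TT (bx b) ((ρ : ℂ) - 1 / 2)‖ ^ 2 ≤ (mu ρ : ℝ) * (16 * (1 / (1 + ((ρ : ℂ).im - 0) ^ 2))) :=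
        mul_le_mul_of_nonneg_left (h1.trans h2) (Nat.cast_nonneg _)
    _ = _ := by ring

lemma bx_Hd {b : ℝ} (hb : 0 < b) (hb3 : b ≤ 1 / 3) : Hd b (bx b) := (Hd_iff hb _).2 ⟨bx_Fa, bx_Dom hb hb3⟩

lemma GG_bx {b : ℝ} (hb : 0 < b) (hb3 : b ≤ 1 / 3) {w : ℂ} (hw : |w.re| ≤ 1) :
    (GG (bx b) (bx b) w).re ≤ 16 * b ^ 2 / (1 + (b * w.im) ^ 2) := by
  refine (Complex.re_le_norm _).trans ?_
  unfold GG
  rw [norm_mul, RCLike.norm_conj]
  have h1 := TT_bx_strip hb hb3 hw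
  have h2 := TT_bx_strip hb hb3 (w := -conj w) (by simpa using hw)
  have e : (-conj w).im = w.im := by simp
  rw [e] at h2
  nlinarith [sq_nonneg (‖TT (bx b) w‖ - ‖TT (bx b) (-conj w)‖)]

/-- Weil's formula for the box: there is no prime -/
lemma weil_bx {b : ℝ} (hb : 0 < b) (hb3 : b ≤ 1 / 3) :
    1 / (2 * Real.pi) * (∫ v : ℝ, GD v * ‖TT (bx b) (v * I)‖ ^ 2) ≤ QQ (bx b) := by
  rw [weil hb (bx_Hd hb hb3)]
  have h1 := pole_nonneg hb
  have h2 : ⌊Real.exp (2 * b)⌋₊ ≤ 1 := by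
    rw [← Nat.lt_succ_iff, Nat.floor_lt' (by norm_num)]
    push_cast
    rw [← Real.lt_log_iff_exp_lt (by norm_num)]
    have := Real.log_two_gt_d9
    linarith
  have h3 : ∑ n ∈ Finset.Icc 1 ⌊Real.exp (2 * b)⌋₊, aL n * ∫ x : ℝ, bx b (x + Real.log n) * conj (bx b x) = 0 := by
    apply Finset.sum_eq_zero
    intro n hn
    rw [Finset.mem_Icc] at hn
    have : n = 1 := by omega
    rw [this]
    have : aL 1 = 0 := by
      unfold aL
      simp
    rw [this, zero_mul]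
  rw [h3, Complex.zero_re]
  have h4 : 0 ≤ 2 * (L.r : ℝ) * (TT (bx b) (1 / 2) * conj (TT (bx b) (-(1 / 2)))).re := by positivity
  linarith

end

end Pool.Agent.V11271.LU
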