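import Pool.Agent.V11271.LU.Up
import Pool.Agent.V11271.LI.Abs

set_option autoImplicit false
set_option linter.unusedSectionVars false
set_option maxHeartbeats 2000000

/-!
# Uniform weighted counts
-/

open Complex Filter Topology Set MeasureTheory Metric
open scoped ComplexConjugate

namespace Pool.Agent.V11271.LU

/-- weighted sums from local counts -/
lemma sum_unif {s : ℝ} (hs : 1 < s) : ∃ Cs : ℝ, 0 < Cs ∧ ∀ (ι : Type) (y : ι → ℝ) (m : ι → ℝ) (B : ℝ), 0 ≤ B →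
    (∀ i, 0 ≤ m i) → (∀ n : ℤ, ∀ S : Finset ι, (∀ i ∈ S, ⌊y i⌋ = n) → ∑ i ∈ S, m i ≤ B * Real.log (2 + |(n : ℝ)|)) →
    ∀ S : Finset ι, ∑ i ∈ S, m i / (1 + |y i|) ^ s ≤ Cs * B := by
  obtain ⟨e, he⟩ : ∃ e : ℝ, e = (s - 1) / 2 := ⟨_, rfl⟩
  have he0 : 0 < e := by rw [he]; linarith
  obtain ⟨C1, hC1, hlog⟩ := LI.log_le_C he0
  have hsum := LI.summable_int (s := s - e) (by rw [he]; linarith)
  have hT0 : 0 ≤ ∑' n : ℤ, 1 / (1 + |(n : ℝ)|) ^ (s - e) := tsum_nonneg fun n => by positivity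
  refine ⟨C1 * 2 ^ s * (∑' n : ℤ, 1 / (1 + |(n : ℝ)|) ^ (s - e) + 1), by positivity, ?_⟩
  intro ι y m B hB hm hloc S
  classical
  rw [← Finset.sum_fiberwise_of_maps_to (g := fun i => ⌊y i⌋) (t := S.image fun i => ⌊y i⌋)
    (fun i hi => Finset.mem_image_of_mem _ hi)]
  calc ∑ n ∈ S.image (fun i => ⌊y i⌋), ∑ i ∈ S with ⌊y i⌋ = n, m i / (1 + |y i|) ^ s
      ≤ ∑ n ∈ S.image (fun i => ⌊y i⌋), B * C1 * 2 ^ s * (1 / (1 + |(n : ℝ)|) ^ (s - e)) := by
        apply Finset.sum_le_sum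
        intro n _
        have h1 : ∀ i ∈ S.filter (fun i => ⌊y i⌋ = n), m i / (1 + |y i|) ^ s ≤
            m i * (2 ^ s / (1 + |(n : ℝ)|) ^ s) := by
          intro i hi
          rw [Finset.mem_filter] at hi
          have h2 := Int.floor_le (y i)
          have h3 := Int.lt_floor_add_one (y i)
          rw [hi.2] at h2 h3
          have h4 : 1 + |(n : ℝ)| ≤ 2 * (1 + |y i|) := by
            have h5 : |(n : ℝ)| ≤ |y i| + 1 := by
              rcases abs_cases (n : ℝ) with ⟨h6, _⟩ | ⟨h6, _⟩ <;> rcases abs_cases (y i) with ⟨h7, _⟩ | ⟨h7, _⟩ <;>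
                linarith
            have := abs_nonneg (y i)
            linarith
          rw [div_eq_mul_inv]
          apply mul_le_mul_of_nonneg_left _ (hm i)
          rw [← one_div, div_le_div_iff₀ (by positivity) (by positivity), one_mul, ← Real.mul_rpow (by norm_num)
            (by positivity)]
          exact Real.rpow_le_rpow (by positivity) h4 (by linarith)
        calc ∑ i ∈ S with ⌊y i⌋ = n, m i / (1 + |y i|) ^ s
            ≤ ∑ i ∈ S with ⌊y i⌋ = n, m i * (2 ^ s / (1 + |(n : ℝ)|) ^ s) := Finset.sum_le_sum h1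
          _ = (∑ i ∈ S with ⌊y i⌋ = n, m i) * (2 ^ s / (1 + |(n : ℝ)|) ^ s) := by rw [Finset.sum_mul]
          _ ≤ (B * Real.log (2 + |(n : ℝ)|)) * (2 ^ s / (1 + |(n : ℝ)|) ^ s) := by
              gcongr
              exact hloc n _ fun i hi => (Finset.mem_filter.mp hi).2
          _ ≤ (B * (C1 * (1 + |(n : ℝ)|) ^ e)) * (2 ^ s / (1 + |(n : ℝ)|) ^ s) := by
              have h2 := hlog (1 + |(n : ℝ)|) (by linarith [abs_nonneg (n : ℝ)])
              rw [show (1 : ℝ) + (1 + |(n : ℝ)|) = 2 + |(n : ℝ)| by ring] at h2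
              gcongr
          _ = B * C1 * 2 ^ s * (1 / (1 + |(n : ℝ)|) ^ (s - e)) := by
              rw [Real.rpow_sub (by positivity)]
              have h5 : (1 + |(n : ℝ)|) ^ s ≠ 0 := by positivity
              have h6 : (1 + |(n : ℝ)|) ^ e ≠ 0 := by positivity
              field_simp
    _ = B * C1 * 2 ^ s * ∑ n ∈ S.image (fun i => ⌊y i⌋), (1 / (1 + |(n : ℝ)|) ^ (s - e)) := by
        rw [Finset.mul_sum]
    _ ≤ B * C1 * 2 ^ s * (∑' n : ℤ, 1 / (1 + |(n : ℝ)|) ^ (s - e) + 1) := by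
        gcongr
        exact (hsum.sum_le_tsum _ fun n _ => by positivity).trans (by linarith)
    _ = _ := by ring

open Pool.Agent.Y23.G
open Pool.Agent.W169.HF H353.E Pool.Agent.W355.UN Pool.Agent.TH839.NA

section

variable [L : LFun]

lemma qq_mono {t u : ℝ} (h : |t| ≤ |u|) : qq t ≤ qq u := by
  unfold qq Lg
  have := one_le_m (L := L)
  gcongr

/-- zeros in an interval of length `2 X` -/
lemma cnt_int {X : ℝ} (hX : 1 ≤ X) (t : ℝ) (S : Finset Zt) (hS : ∀ ρ ∈ S, |(ρ : ℂ).im - t| ≤ X) :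
    ∑ ρ ∈ S, (mu ρ : ℝ) ≤ 4 * X * (CN * qq (|t| + X + 1)) := by
  classical
  have hq := one_le_qq (L := L) (|t| + X + 1)
  have hCN := CN_pos
  rw [← Finset.sum_fiberwise_of_maps_to (g := fun ρ : Zt => ⌊(ρ : ℂ).im⌋) (t := Finset.Icc ⌊t - X⌋ ⌊t + X⌋)
    (fun ρ hρ => by
      have h := abs_le.mp (hS ρ hρ)
      rw [Finset.mem_Icc]
      exact ⟨Int.floor_le_floor (by linarith), Int.floor_le_floor (by linarith)⟩)]
  have h1 : ∀ n ∈ Finset.Icc ⌊t - X⌋ ⌊t + X⌋,
      ∑ ρ ∈ S.filter (fun ρ : Zt => ⌊(ρ : ℂ).im⌋ = n), (mu (ρ : ℂ) : ℝ) ≤ CN * qq (|t| + X + 1) := by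
    intro n hn
    rw [Finset.mem_Icc] at hn
    have h2 := X_cntU (n : ℝ) ((S.filter fun ρ : Zt => ⌊(ρ : ℂ).im⌋ = n).image fun ρ : Zt => (ρ : ℂ)) (by
      intro s hs
      rw [Finset.mem_image] at hs
      obtain ⟨ρ, hρ, rfl⟩ := hs
      rw [Finset.mem_filter] at hρ
      refine ⟨ρ.2, ?_⟩
      have h3 := Int.floor_le (ρ : ℂ).im
      have h4 := Int.lt_floor_add_one (ρ : ℂ).im
      rw [hρ.2] at h3 h4
      rw [abs_le]
      constructor <;> linarith)
    rw [Finset.sum_image (fun a _ b _ hab => Subtype.ext hab)] at h2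
    push_cast at h2
    refine h2.trans ?_
    apply mul_le_mul_of_nonneg_left _ hCN.le
    apply qq_mono
    have h3 : (⌊t - X⌋ : ℝ) ≤ n := by exact_mod_cast hn.1
    have h4 : (n : ℝ) ≤ ⌊t + X⌋ := by exact_mod_cast hn.2
    have h5 := Int.floor_le (t + X)
    have h6 := Int.lt_floor_add_one (t - X)
    rw [abs_of_nonneg (by positivity : 0 ≤ |t| + X + 1), abs_le]
    have h7 := le_abs_self t
    have h8 := neg_abs_le t
    constructor <;> linarith
  refine (Finset.sum_le_sum h1).trans ?_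
  rw [Finset.sum_const, nsmul_eq_mul]
  gcongr
  rw [Int.card_Icc]
  have h5 := Int.floor_le (t + X)
  have h6 := Int.lt_floor_add_one (t - X)
  have h7 : ((⌊t + X⌋ + 1 - ⌊t - X⌋ : ℤ) : ℝ) ≤ 4 * X := by
    push_cast
    linarith
  have h8 : 0 ≤ ⌊t + X⌋ + 1 - ⌊t - X⌋ := by
    have : ⌊t - X⌋ ≤ ⌊t + X⌋ := Int.floor_le_floor (by linarith)
    linarith
  calc (((⌊t + X⌋ + 1 - ⌊t - X⌋).toNat : ℕ) : ℝ) = ((⌊t + X⌋ + 1 - ⌊t - X⌋ : ℤ) : ℝ) := by
        exact_mod_cast Int.toNat_of_nonneg h8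
    _ ≤ 4 * X := h7

end

/-- the weighted sums over the zeros -/
theorem wsum : ∃ C : ℝ, 0 < C ∧ ∀ [L : LFun] (X : ℝ), 1 ≤ X → ∀ S : Finset Zt,
    ∑ ρ ∈ S, (mu ρ : ℝ) / (1 + |(ρ : ℂ).im / X|) ^ (3 / 2 : ℝ) ≤ C * (X * qq X) := by
  obtain ⟨Cs, hCs, hsu⟩ := sum_unif (s := 3 / 2) (by norm_num)
  have hCN := CN_pos
  refine ⟨Cs * (10 * CN), by positivity, ?_⟩
  intro L X hX S
  have hX0 : 0 < X := by linarith
  have hq := one_le_qq (L := L) X
  have h := hsu Zt (fun ρ => (ρ : ℂ).im / X) (fun ρ => (mu ρ : ℝ)) (10 * CN * (X * qq X)) (by positivity)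
    (fun ρ => Nat.cast_nonneg _) (fun n S hS => by
      have h1 := cnt_int (L := L) hX (n * X) S (fun ρ hρ => by
        have h2 := hS ρ hρ
        have h3 := Int.floor_le ((ρ : ℂ).im / X)
        have h4 := Int.lt_floor_add_one ((ρ : ℂ).im / X)
        rw [h2] at h3 h4
        rw [le_div_iff₀ hX0] at h3
        rw [div_lt_iff₀ hX0] at h4
        rw [abs_le]
        constructor
        · linarith
        · nlinarith)
      refine h1.trans ?_
      have hn := abs_nonneg (n : ℝ)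
      have h2 : qq (|(n : ℝ) * X| + X + 1) ≤ qq X + L.m * Real.log (2 + |(n : ℝ)|) := by
        unfold qq Lg
        have h3 : Real.log (3 + |(|(n : ℝ) * X| + X + 1)|) ≤ Real.log (3 + |X|) + Real.log (2 + |(n : ℝ)|) := by
          rw [← Real.log_mul (by positivity) (by positivity)]
          apply Real.log_le_log (by positivity)
          rw [abs_mul, abs_of_pos hX0, abs_of_nonneg (by positivity : (0:ℝ) ≤ |(n : ℝ)| * X + X + 1)]
          nlinarith
        have := one_le_m (L := L)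
        nlinarith
      have h3 : (69 / 100 : ℝ) ≤ Real.log (2 + |(n : ℝ)|) := by
        have h4 := Real.log_two_gt_d9
        have h5 : Real.log 2 ≤ Real.log (2 + |(n : ℝ)|) := Real.log_le_log (by norm_num) (by linarith)
        linarith
      have h4 : qq (|(n : ℝ) * X| + X + 1) ≤ 5 / 2 * qq X * Real.log (2 + |(n : ℝ)|) := by
        refine h2.trans ?_
        have h5 := m_le_qq (L := L) X
        have h6 : L.m * Real.log (2 + |(n : ℝ)|) ≤ qq X * Real.log (2 + |(n : ℝ)|) := by gcongr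
        nlinarith
      calc 4 * X * (CN * qq (|(n : ℝ) * X| + X + 1)) ≤ 4 * X * (CN * (5 / 2 * qq X * Real.log (2 + |(n : ℝ)|))) := by
            gcongr
        _ = 10 * CN * (X * qq X) * Real.log (2 + |(n : ℝ)|) := by ring) S
  refine h.trans (le_of_eq ?_)
  ring

end Pool.Agent.V11271.LU
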