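import Pool.Agent.V11271.LU.Inst
import Pool.Agent.W355.UN.Ab2

set_option autoImplicit false
set_option linter.unusedSectionVars false
set_option maxHeartbeats 2000000

/-!
# Li coefficients with a far centre: elliptic curves over abelian number fields
-/

open Complex Filter Topology UpperHalfPlane MatrixGroups CongruenceSubgroup
open scoped ComplexConjugate

namespace Pool.Agent.V11271.LU

open Pool.Agent.Y23.G Pool.Agent.W355.UN
open Pool.Agent.W169.HF (IsForm coef)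

section

variable {N : ℕ} [NeZero N] {f : CuspForm (Gamma0 N : Subgroup (GL (Fin 2) ℝ)) 2} {w : ℝ}
variable {M : ℕ} [NeZero M] (G : Subgroup (DirichletCharacter ℂ M)) [Fintype G]

/-- the completed L-function of `E` over `K` -/
def IsC (f : CuspForm (Gamma0 N : Subgroup (GL (Fin 2) ℝ)) 2) (Λ : ℂ → ℂ) : Prop :=
  Differentiable ℂ Λ ∧ ∃ σ : ℝ, ∀ s : ℂ, σ ≤ s.re → Λ s = prodE G f s

/-- the size -/
noncomputable def sz (N : ℕ) : ℝ := Fintype.card G + Real.log (condA G N)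

lemma exists_list (hf : IsForm N f w) (hco : Nat.Coprime M N) :
    ∃ l : List LFun, l ≠ [] ∧ (∀ s : ℂ, XL' l s = 0 → |s.re - 1 / 2| ≤ 1 / 2) ∧
      (∃ σ : ℝ, ∀ s : ℂ, σ ≤ s.re → XL' l s = kap G N * prodE G f (s + 1 / 2)) ∧ sz G N ≤ ML l := by
  have hE := eu2_of hf
  have hnf := isNewf_of hf
  have hone : ∀ χ : G, ∃ L : LFun, (∀ s : ℂ, L.X s = 0 → |s.re - 1 / 2| ≤ 1 / 2) ∧
      (∃ σ : ℝ, ∀ s : ℂ, σ ≤ s.re → L.X s = (2 * ((Real.sqrt N * ((χ : DirichletCharacter ℂ M).conductor : ℝ) : ℝ) : ℂ) ^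
        (-(1 / 2) : ℂ)) * facE f (χ : DirichletCharacter ℂ M).primitiveCharacter (s + 1 / 2)) ∧
      1 + Real.log ((N : ℝ) * ((χ : DirichletCharacter ℂ M).conductor : ℝ) ^ 2) ≤ MM (L := L) := by
    intro χ
    have : NeZero (χ : DirichletCharacter ℂ M).conductor := ⟨DirichletCharacter.conductor_ne_zero _⟩
    obtain ⟨c, X, h⟩ := tw_raw f hE hnf (χ : DirichletCharacter ℂ M).primitiveCharacter
      (DirichletCharacter.primitiveCharacter_isPrimitive _) (coprime_cond hco _)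
    have hre : ∀ j, -1 / 2 < ((fun j => ([(((1 / 2 : ℝ)) : ℂ), (((3 / 2 : ℝ)) : ℂ)] : List ℂ).get j) j).re := by
      intro j
      have h1 := List.get_mem ([(((1 / 2 : ℝ)) : ℂ), (((3 / 2 : ℝ)) : ℂ)] : List ℂ) j
      simp only [List.mem_cons, List.not_mem_nil, or_false] at h1
      rcases h1 with h1 | h1
      · show -1 / 2 < (([(((1 / 2 : ℝ)) : ℂ), (((3 / 2 : ℝ)) : ℂ)] : List ℂ).get j).re
        rw [h1, Complex.ofReal_re]
        norm_num
      · show -1 / 2 < (([(((1 / 2 : ℝ)) : ℂ), (((3 / 2 : ℝ)) : ℂ)] : List ℂ).get j).re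
        rw [h1, Complex.ofReal_re]
        norm_num
    refine ⟨ofRaw h hre, fun s hs => raw_strip h hs, ?_, ?_⟩
    · have h1 : RawL [(((1 / 2 : ℝ)) : ℂ), (((3 / 2 : ℝ)) : ℂ)] 0 _ _ _ X := h
      obtain ⟨σ, hσ⟩ := h.eq
      refine ⟨max σ 2, fun s hs => ?_⟩
      have h2 := hσ s ((le_max_left _ _).trans hs)
      have h3 := fac_eq hE (Nat.pos_of_ne_zero (NeZero.ne _)) (χ : DirichletCharacter ℂ M).primitiveCharacter
        (s := s) (by linarith [(le_max_right σ 2).trans hs])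
      show X s = _
      rw [h2, ← h3]
      unfold cser
      rw [prod_get ([(((1 / 2 : ℝ)) : ℂ), (((3 / 2 : ℝ)) : ℂ)] : List ℂ) (fun a : ℂ => Gammaℝ (s + a))]
    · have h1 : (0 : ℕ) < List.length ([(((1 / 2 : ℝ)) : ℂ), (((3 / 2 : ℝ)) : ℂ)] : List ℂ) := by simp
      unfold MM
      have h2 : 1 ≤ ∑ j : Fin (List.length ([(((1 / 2 : ℝ)) : ℂ), (((3 / 2 : ℝ)) : ℂ)] : List ℂ)),
          Real.log (3 + ‖([(((1 / 2 : ℝ)) : ℂ), (((3 / 2 : ℝ)) : ℂ)] : List ℂ).get j‖) := by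
        have h3 := Finset.single_le_sum (s := Finset.univ)
          (f := fun j : Fin (List.length ([(((1 / 2 : ℝ)) : ℂ), (((3 / 2 : ℝ)) : ℂ)] : List ℂ)) =>
            Real.log (3 + ‖([(((1 / 2 : ℝ)) : ℂ), (((3 / 2 : ℝ)) : ℂ)] : List ℂ).get j‖))
          (fun j _ => zero_le_one.trans (one_le_log3 (norm_nonneg _)))
          (Finset.mem_univ (⟨0, h1⟩ : Fin (List.length ([(((1 / 2 : ℝ)) : ℂ), (((3 / 2 : ℝ)) : ℂ)] : List ℂ))))
        exact le_trans (one_le_log3 (norm_nonneg _)) h3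
      show 1 + Real.log ((N : ℝ) * ((χ : DirichletCharacter ℂ M).conductor : ℝ) ^ 2) ≤
        Real.log ((N : ℝ) * ((χ : DirichletCharacter ℂ M).conductor : ℝ) ^ 2) +
        ∑ j : Fin (List.length ([(((1 / 2 : ℝ)) : ℂ), (((3 / 2 : ℝ)) : ℂ)] : List ℂ)),
          Real.log (3 + ‖([(((1 / 2 : ℝ)) : ℂ), (((3 / 2 : ℝ)) : ℂ)] : List ℂ).get j‖)
      linarith
  choose L hL1 hL2 hL3 using hone
  choose σ hσ using hL2
  refine ⟨(Finset.univ : Finset G).toList.map L, ?_, fun s hs => ?_, ⟨∑ χ : G, |σ χ|, fun s hs => ?_⟩, ?_⟩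
  · intro h
    rw [List.map_eq_nil_iff] at h
    have h1 : (1 : G) ∈ (Finset.univ : Finset G).toList := Finset.mem_toList.2 (Finset.mem_univ _)
    rw [h] at h1
    exact List.not_mem_nil h1
  · unfold XL' at hs
    rw [List.map_map, List.prod_eq_zero_iff, List.mem_map] at hs
    obtain ⟨χ, _, h2⟩ := hs
    exact hL1 χ s h2
  · have e : XL' ((Finset.univ : Finset G).toList.map L) s = ∏ χ : G, (L χ).X s := by
      unfold XL'
      rw [List.map_map]
      exact Finset.prod_map_toList _ _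
    rw [e]
    unfold kap prodE
    rw [← Finset.prod_mul_distrib]
    refine Finset.prod_congr rfl fun χ _ => hσ χ s ?_
    refine le_trans (le_abs_self _) (le_trans ?_ hs)
    exact Finset.single_le_sum (f := fun χ : G => |σ χ|) (fun _ _ => abs_nonneg _) (Finset.mem_univ χ)
  · have e : ML ((Finset.univ : Finset G).toList.map L) = ∑ χ : G, MM (L := L χ) := by
      unfold ML
      rw [List.map_map]
      exact Finset.sum_map_toList _ _
    rw [e]
    unfold sz condA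
    have hN0 : (0 : ℝ) < N := by exact_mod_cast Nat.pos_of_ne_zero (NeZero.ne N)
    rw [Real.log_prod (fun χ _ => by
      have : (0 : ℝ) < ((χ : DirichletCharacter ℂ M).conductor : ℝ) := by
        exact_mod_cast Nat.pos_of_ne_zero (DirichletCharacter.conductor_ne_zero _)
      positivity)]
    have e2 : (Fintype.card G : ℝ) = ∑ _χ : G, (1 : ℝ) := by simp
    rw [e2, ← Finset.sum_add_distrib]
    exact Finset.sum_le_sum fun χ _ => hL3 χ

/-- the completed function in terms of the list -/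
lemma exists_data (hf : IsForm N f w) (hco : Nat.Coprime M N) :
    ∃ (l : List LFun) (k : ℂ), k ≠ 0 ∧ l ≠ [] ∧ (∀ s : ℂ, XL' l s = 0 → |s.re - 1 / 2| ≤ 1 / 2) ∧
      sz G N ≤ ML l ∧ IsC G f (fun z => k * XL' l (z - 1 / 2)) ∧
      ∀ Λ : ℂ → ℂ, IsC G f Λ → Λ = fun z => k * XL' l (z - 1 / 2) := by
  obtain ⟨l, hl, hz, ⟨σ, hσ⟩, hsz⟩ := exists_list G hf hco
  have hk := kap_ne G (Nat.pos_of_ne_zero (NeZero.ne N))
  have hd : Differentiable ℂ fun z => (kap G N)⁻¹ * XL' l (z - 1 / 2) :=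
    ((zp_list l hl).diff.comp (by fun_prop : Differentiable ℂ fun z : ℂ => z - 1 / 2)).const_mul _
  have heq : ∀ s : ℂ, σ + 1 / 2 ≤ s.re → (kap G N)⁻¹ * XL' l (s - 1 / 2) = prodE G f s := by
    intro s hs
    have h1 := hσ (s - 1 / 2) (by
      have : (s - 1 / 2).re = s.re - 1 / 2 := by simp
      rw [this]
      linarith)
    rw [sub_add_cancel] at h1
    rw [h1, ← mul_assoc, inv_mul_cancel₀ hk, one_mul]
  refine ⟨l, (kap G N)⁻¹, inv_ne_zero hk, hl, hz, hsz, ⟨hd, σ + 1 / 2, heq⟩, fun Λ hΛ => ?_⟩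
  exact (Pk.uniq (G := prodE G f) hΛ.1 hd hΛ.2 ⟨σ + 1 / 2, heq⟩).symm

end

/-- uniform positivity for elliptic curves over abelian fields -/
theorem ell_pos {h κ : ℝ} (hh : 0 < h) (hκ : 0 < κ) (hhκ : 2 * h * κ < 1) : ∃ c A0 : ℝ, 0 < c ∧ 2 ≤ A0 ∧
    ∀ (N : ℕ) [NeZero N] (f : CuspForm (Gamma0 N : Subgroup (GL (Fin 2) ℝ)) 2) (w : ℝ), IsForm N f w →
    ∀ (M : ℕ) [NeZero M] (G : Subgroup (DirichletCharacter ℂ M)) [Fintype G], Nat.Coprime M N →
    ∀ Λ : ℂ → ℂ, IsC G f Λ → (∀ s : ℂ, Λ s = 0 → s.re ≤ 1 + h) → ∀ A : ℝ, A0 ≤ A → ∀ n : ℕ, 1 ≤ n →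
      n ≤ κ * A * Real.log A → c * sz G N * (n * A) ≤ liE Λ A n := by
  obtain ⟨c, A0, hc, hA0, H⟩ := list_pos hh hκ hhκ
  refine ⟨c, A0, hc, hA0, ?_⟩
  intro N _ f w hf M _ G _ hco Λ hΛ hz A hA n hn hnA
  obtain ⟨l, k, hk, hl, hst, hsz, _, huniq⟩ := exists_data G hf hco
  have hΛe := huniq Λ hΛ
  have hzp := zp_list l hl
  have hz2 : ∀ s : ℂ, XL' l s = 0 → s.re ≤ 1 / 2 + h := by
    intro s hs
    have h1 := hz (s + 1 / 2) (by
      rw [hΛe]
      simp only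
      rw [add_sub_cancel_right, hs, mul_zero])
    have : (s + 1 / 2).re = s.re + 1 / 2 := by simp
    rw [this] at h1
    linarith
  have h1 := H l hl (fun s hs => by
    have h2 := hz2 s hs
    have h3 := hz2 _ (hzp.refl hs)
    simp only [sub_re, one_re, conj_re] at h3
    rw [abs_le]
    constructor <;> linarith) A hA n hn hnA
  have hA2 : 0 < A := by linarith
  rw [hΛe, liE_shift hzp.diff hk]
  refine le_trans ?_ h1
  rw [mul_assoc]
  gcongr

section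

variable {N : ℕ} [NeZero N] {f : CuspForm (Gamma0 N : Subgroup (GL (Fin 2) ℝ)) 2} {w : ℝ}
variable {M : ℕ} [NeZero M] (G : Subgroup (DirichletCharacter ℂ M)) [Fintype G]

theorem ell_exists (hf : IsForm N f w) (hco : Nat.Coprime M N) : ∃ Λ : ℂ → ℂ, IsC G f Λ := by
  obtain ⟨l, k, hk, hl, hst, hsz, h, huniq⟩ := exists_data G hf hco
  exact ⟨_, h⟩

theorem ell_strip (hf : IsForm N f w) (hco : Nat.Coprime M N) {Λ : ℂ → ℂ} (hΛ : IsC G f Λ) {s : ℂ} (hs : Λ s = 0) :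
    |s.re - 1| ≤ 1 / 2 := by
  obtain ⟨l, k, hk, hl, hst, hsz, h, huniq⟩ := exists_data G hf hco
  rw [huniq Λ hΛ] at hs
  have h1 := hst _ ((mul_eq_zero.mp hs).resolve_left hk)
  have : (s - 1 / 2).re = s.re - 1 / 2 := by simp
  rw [this] at h1
  rwa [show s.re - 1 / 2 - 1 / 2 = s.re - 1 by ring] at h1

theorem ell_neg (hf : IsForm N f w) (hco : Nat.Coprime M N) {Λ : ℂ → ℂ} (hΛ : IsC G f Λ) {κ : ℝ} (hκ : 0 < κ)
    (H : ∃ A0 : ℝ, ∀ A : ℝ, A0 ≤ A → ∀ n : ℕ, 1 ≤ n → n ≤ κ * A * Real.log A → 0 ≤ liE Λ A n) {s : ℂ} (hs : Λ s = 0) :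
    |s.re - 1| ≤ 1 / κ := by
  obtain ⟨l, k, hk, hl, hst, hsz, h, huniq⟩ := exists_data G hf hco
  have hzp := zp_list l hl
  obtain ⟨A0, hA0⟩ := H
  rw [huniq Λ hΛ] at hs
  have h0 := (mul_eq_zero.mp hs).resolve_left hk
  have h1 := hzp.neg hκ ⟨A0, fun A hA n hn hnA => by
    have h2 := hA0 A hA n hn hnA
    rw [huniq Λ hΛ, liE_shift hzp.diff hk] at h2
    exact h2⟩ h0
  have : (s - 1 / 2).re = s.re - 1 / 2 := by simp
  rw [this] at h1
  rwa [show s.re - 1 / 2 - 1 / 2 = s.re - 1 by ring] at h1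

theorem ell_summable (hf : IsForm N f w) (hco : Nat.Coprime M N) {Λ : ℂ → ℂ} (hΛ : IsC G f Λ) {A : ℝ} (hA : 2 ≤ A)
    (n : ℕ) : Summable fun s : ℂ => (analyticOrderNatAt Λ s : ℝ) * (1 - ((s - 1 - A) / (s - 1 + A)) ^ n).re := by
  obtain ⟨l, k, hk, hl, hst, hsz, h, huniq⟩ := exists_data G hf hco
  have hzp := zp_list l hl
  rw [← (Equiv.addRight (1 / 2 : ℂ)).summable_iff]
  refine (liS_summable hzp hA n).congr fun s => ?_
  rw [huniq Λ hΛ]
  simp only [Function.comp, Equiv.coe_addRight]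
  rw [ord_shift hzp.diff hk]
  have e1 : s + 1 / 2 - 1 - (A : ℂ) = s - 1 / 2 - A := by ring
  have e2 : s + 1 / 2 - 1 + (A : ℂ) = s - 1 / 2 + A := by ring
  rw [e1, e2]

lemma sz_pos (N : ℕ) [NeZero N] : 1 ≤ sz G N := by
  unfold sz
  have h1 : (1 : ℝ) ≤ Fintype.card G := by exact_mod_cast Fintype.card_pos
  have h2 : 0 ≤ Real.log (condA G N) := by
    apply Real.log_nonneg
    unfold condA
    refine Finset.one_le_prod fun χ _ => ?_
    have h3 : (1 : ℝ) ≤ N := by exact_mod_cast Nat.one_le_iff_ne_zero.2 (NeZero.ne N)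
    have h4 : (1 : ℝ) ≤ ((χ : DirichletCharacter ℂ M).conductor : ℝ) := by
      exact_mod_cast Nat.one_le_iff_ne_zero.2 (DirichletCharacter.conductor_ne_zero _)
    have h5 : (1 : ℝ) ≤ ((χ : DirichletCharacter ℂ M).conductor : ℝ) ^ 2 := one_le_pow₀ h4
    nlinarith
  linarith

end

end Pool.Agent.V11271.LU
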