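import Pool.Agent.V11271.LU.Ell

set_option autoImplicit false
set_option linter.unusedSectionVars false
set_option maxHeartbeats 2000000

/-!
# Li coefficients with a far centre: elliptic curves over `ℚ`
-/

open Complex Filter Topology UpperHalfPlane MatrixGroups CongruenceSubgroup
open scoped ComplexConjugate

namespace Pool.Agent.V11271.LU

open Pool.Agent.Y23.G Pool.Agent.W355.UN
open Pool.Agent.W169.HF (IsForm coef)

/-- the completed L-function of `E` -/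
def IsC1 {N : ℕ} (f : CuspForm (Gamma0 N : Subgroup (GL (Fin 2) ℝ)) 2) (Λ : ℂ → ℂ) : Prop :=
  Differentiable ℂ Λ ∧ ∀ s : ℂ, 2 < s.re →
    Λ s = ((Real.sqrt N / (2 * Real.pi) : ℝ) : ℂ) ^ s * Complex.Gamma s *
      ∑' n : ℕ, coef f (n + 1) * ((n + 1 : ℕ) : ℂ) ^ (-s)

section

variable {N : ℕ} [NeZero N] {f : CuspForm (Gamma0 N : Subgroup (GL (Fin 2) ℝ)) 2} {w : ℝ}

omit [NeZero N] in
lemma facE_one (s : ℂ) : facE f (1 : DirichletCharacter ℂ 1) s =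
    ((Real.sqrt N / (2 * Real.pi) : ℝ) : ℂ) ^ s * Complex.Gamma s *
      ∑' n : ℕ, coef f (n + 1) * ((n + 1 : ℕ) : ℂ) ^ (-s) := by
  unfold facE
  have h1 : (Real.sqrt N * ((1 : ℕ) : ℝ) / (2 * Real.pi) : ℝ) = Real.sqrt N / (2 * Real.pi) := by
    rw [Nat.cast_one, mul_one]
  rw [h1]
  congr 1
  refine tsum_congr fun n => ?_
  have h2 : (1 : DirichletCharacter ℂ 1) ((n + 1 : ℕ) : ZMod 1) = 1 :=
    MulChar.one_apply (isUnit_of_subsingleton _)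
  rw [h2, mul_one]

lemma eone_data (hf : IsForm N f w) :
    ∃ (L : LFun) (k : ℂ), k ≠ 0 ∧ (∀ s : ℂ, L.X s = 0 → |s.re - 1 / 2| ≤ 1 / 2) ∧
      1 + Real.log N ≤ MM (L := L) ∧ IsC1 f (fun z => k * L.X (z - 1 / 2)) ∧
      ∀ Λ : ℂ → ℂ, IsC1 f Λ → Λ = fun z => k * L.X (z - 1 / 2) := by
  have hE := eu2_of hf
  have hnf := isNewf_of hf
  obtain ⟨c, X, h⟩ := tw_raw f hE hnf (1 : DirichletCharacter ℂ 1)
    DirichletCharacter.isPrimitive_one_level_one (Nat.coprime_one_left N)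
  have hre : ∀ j, -1 / 2 < ((fun j => ([(((1 / 2 : ℝ)) : ℂ), (((3 / 2 : ℝ)) : ℂ)] : List ℂ).get j) j).re := by
    intro j
    have h1 := List.get_mem ([(((1 / 2 : ℝ)) : ℂ), (((3 / 2 : ℝ)) : ℂ)] : List ℂ) j
    simp only [List.mem_cons, List.not_mem_nil, or_false] at h1
    rcases h1 with h1 | h1
    · show -1 / 2 < (([(((1 / 2 : ℝ)) : ℂ), (((3 / 2 : ℝ)) : ℂ)] : List ℂ).get j).re
      rw [h1, Complex.ofReal_re]
      norm_num
    · show -1 / 2 < (([(((1 / 2 : ℝ)) : ℂ), (((3 / 2 : ℝ)) : ℂ)] : List ℂ).get j).re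
      rw [h1, Complex.ofReal_re]
      norm_num
  have hN0 : (0 : ℝ) < N := by exact_mod_cast Nat.pos_of_ne_zero (NeZero.ne N)
  have hsN : 0 < Real.sqrt N := Real.sqrt_pos.2 hN0
  obtain ⟨k0, hk0⟩ : ∃ k0 : ℂ, k0 = 2 * ((Real.sqrt N * ((1 : ℕ) : ℝ) : ℝ) : ℂ) ^ (-(1 / 2) : ℂ) := ⟨_, rfl⟩
  have hk : k0 ≠ 0 := by
    rw [hk0]
    refine mul_ne_zero two_ne_zero ?_
    rw [Ne, Complex.cpow_eq_zero_iff]
    rintro ⟨h1, _⟩
    have h2 : Real.sqrt N * ((1 : ℕ) : ℝ) = 0 := by exact_mod_cast h1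
    rw [Nat.cast_one, mul_one] at h2
    linarith
  have hX : ∀ s : ℂ, 1 < s.re → X s = k0 * facE f (1 : DirichletCharacter ℂ 1) (s + 1 / 2) := by
    intro s hs
    have h2 := (raw0 h).eq' (s := s) (by linarith)
    rw [h2, hk0, ← fac_eq hE one_pos (1 : DirichletCharacter ℂ 1) hs]
    unfold cser H353.E.gaf
    rw [← prod_get ([(((1 / 2 : ℝ)) : ℂ), (((3 / 2 : ℝ)) : ℂ)] : List ℂ) (fun a : ℂ => Gammaℝ (s + a))]
    simp only [sub_neg_eq_add, pow_zero, one_mul, Nat.cast_one]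
  have hXd : Differentiable ℂ X := h.entire
  have hd : Differentiable ℂ fun z => k0⁻¹ * X (z - 1 / 2) :=
    (hXd.comp (by fun_prop : Differentiable ℂ fun z : ℂ => z - 1 / 2)).const_mul _
  have hc1 : IsC1 f fun z => k0⁻¹ * X (z - 1 / 2) := by
    refine ⟨hd, fun s hs => ?_⟩
    have h3 : (s - 1 / 2).re = s.re - 1 / 2 := by simp
    have h4 := hX (s - 1 / 2) (by rw [h3]; linarith)
    rw [sub_add_cancel, facE_one] at h4
    simp only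
    rw [h4, ← mul_assoc, inv_mul_cancel₀ hk, one_mul]
  refine ⟨ofRaw h hre, k0⁻¹, inv_ne_zero hk, fun s hs => raw_strip h hs, ?_, hc1, fun Λ hΛ => ?_⟩
  · have h1 : (0 : ℕ) < List.length ([(((1 / 2 : ℝ)) : ℂ), (((3 / 2 : ℝ)) : ℂ)] : List ℂ) := by simp
    have h2 : 1 ≤ ∑ j : Fin (List.length ([(((1 / 2 : ℝ)) : ℂ), (((3 / 2 : ℝ)) : ℂ)] : List ℂ)),
        Real.log (3 + ‖([(((1 / 2 : ℝ)) : ℂ), (((3 / 2 : ℝ)) : ℂ)] : List ℂ).get j‖) := by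
      have h3 := Finset.single_le_sum (s := Finset.univ)
        (f := fun j : Fin (List.length ([(((1 / 2 : ℝ)) : ℂ), (((3 / 2 : ℝ)) : ℂ)] : List ℂ)) =>
          Real.log (3 + ‖([(((1 / 2 : ℝ)) : ℂ), (((3 / 2 : ℝ)) : ℂ)] : List ℂ).get j‖))
        (fun j _ => zero_le_one.trans (one_le_log3 (norm_nonneg _)))
        (Finset.mem_univ (⟨0, h1⟩ : Fin (List.length ([(((1 / 2 : ℝ)) : ℂ), (((3 / 2 : ℝ)) : ℂ)] : List ℂ))))
      exact le_trans (one_le_log3 (norm_nonneg _)) h3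
    have h3 : (N : ℝ) * (((1 : ℕ) : ℝ)) ^ 2 = N := by rw [Nat.cast_one, one_pow, mul_one]
    show 1 + Real.log N ≤ Real.log ((N : ℝ) * (((1 : ℕ) : ℝ)) ^ 2) +
      ∑ j : Fin (List.length ([(((1 / 2 : ℝ)) : ℂ), (((3 / 2 : ℝ)) : ℂ)] : List ℂ)),
        Real.log (3 + ‖([(((1 / 2 : ℝ)) : ℂ), (((3 / 2 : ℝ)) : ℂ)] : List ℂ).get j‖
        )
    rw [h3]
    linarith
  · exact Pool.Agent.W169.HF.completed_unique hΛ hc1

end

/-- uniform positivity for elliptic curves -/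
theorem eone_pos {h κ : ℝ} (hh : 0 < h) (hκ : 0 < κ) (hhκ : 2 * h * κ < 1) : ∃ c A0 : ℝ, 0 < c ∧ 2 ≤ A0 ∧
    ∀ (N : ℕ) [NeZero N] (f : CuspForm (Gamma0 N : Subgroup (GL (Fin 2) ℝ)) 2) (w : ℝ), IsForm N f w →
    ∀ Λ : ℂ → ℂ, IsC1 f Λ → (∀ s : ℂ, Λ s = 0 → s.re ≤ 1 + h) → ∀ A : ℝ, A0 ≤ A → ∀ n : ℕ, 1 ≤ n →
      n ≤ κ * A * Real.log A → c * (1 + Real.log N) * (n * A) ≤ liE Λ A n := by
  obtain ⟨c, A0, hc, hA0, H⟩ := li_pos hh hκ hhκ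
  refine ⟨c, A0, hc, hA0, ?_⟩
  intro N _ f w hf Λ hΛ hz A hA n hn hnA
  obtain ⟨L, k, hk, hst, hsz, _, huniq⟩ := eone_data hf
  have hΛe := huniq Λ hΛ
  have hzp : ZP L.X := zp
  have hz2 : ∀ s : ℂ, L.X s = 0 → s.re ≤ 1 / 2 + h := by
    intro s hs
    have h1 := hz (s + 1 / 2) (by
      rw [hΛe]
      simp only
      rw [add_sub_cancel_right, hs, mul_zero])
    have : (s + 1 / 2).re = s.re + 1 / 2 := by simp
    rw [this] at h1
    linarith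
  have h1 := H (L := L) (fun s hs => by
    have h2 := hz2 s hs
    have h3 := hz2 _ (hzp.refl hs)
    simp only [sub_re, one_re, conj_re] at h3
    rw [abs_le]
    constructor <;> linarith) A hA n hn hnA
  have hA2 : 0 < A := by linarith
  rw [hΛe, liE_shift hzp.diff hk, ← li_liS]
  refine le_trans ?_ h1
  rw [mul_assoc]
  gcongr

section

variable {N : ℕ} [NeZero N] {f : CuspForm (Gamma0 N : Subgroup (GL (Fin 2) ℝ)) 2} {w : ℝ}

theorem eone_exists (hf : IsForm N f w) : ∃ Λ : ℂ → ℂ, IsC1 f Λ := by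
  obtain ⟨L, k, hk, hst, hsz, h, huniq⟩ := eone_data hf
  exact ⟨_, h⟩

theorem eone_strip (hf : IsForm N f w) {Λ : ℂ → ℂ} (hΛ : IsC1 f Λ) {s : ℂ} (hs : Λ s = 0) :
    |s.re - 1| ≤ 1 / 2 := by
  obtain ⟨L, k, hk, hst, hsz, h, huniq⟩ := eone_data hf
  rw [huniq Λ hΛ] at hs
  have h1 := hst _ ((mul_eq_zero.mp hs).resolve_left hk)
  have : (s - 1 / 2).re = s.re - 1 / 2 := by simp
  rw [this] at h1
  rwa [show s.re - 1 / 2 - 1 / 2 = s.re - 1 by ring] at h1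

theorem eone_neg (hf : IsForm N f w) {Λ : ℂ → ℂ} (hΛ : IsC1 f Λ) {κ : ℝ} (hκ : 0 < κ)
    (H : ∃ A0 : ℝ, ∀ A : ℝ, A0 ≤ A → ∀ n : ℕ, 1 ≤ n → n ≤ κ * A * Real.log A → 0 ≤ liE Λ A n) {s : ℂ} (hs : Λ s = 0) :
    |s.re - 1| ≤ 1 / κ := by
  obtain ⟨L, k, hk, hst, hsz, h, huniq⟩ := eone_data hf
  have hzp : ZP L.X := zp
  obtain ⟨A0, hA0⟩ := H
  rw [huniq Λ hΛ] at hs
  have h0 := (mul_eq_zero.mp hs).resolve_left hk
  have h1 := hzp.neg hκ ⟨A0, fun A hA n hn hnA => by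
    have h2 := hA0 A hA n hn hnA
    rw [huniq Λ hΛ, liE_shift hzp.diff hk] at h2
    exact h2⟩ h0
  have : (s - 1 / 2).re = s.re - 1 / 2 := by simp
  rw [this] at h1
  rwa [show s.re - 1 / 2 - 1 / 2 = s.re - 1 by ring] at h1

theorem eone_summable (hf : IsForm N f w) {Λ : ℂ → ℂ} (hΛ : IsC1 f Λ) {A : ℝ} (hA : 2 ≤ A)
    (n : ℕ) : Summable fun s : ℂ => (analyticOrderNatAt Λ s : ℝ) * (1 - ((s - 1 - A) / (s - 1 + A)) ^ n).re := by
  obtain ⟨L, k, hk, hst, hsz, h, huniq⟩ := eone_data hf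
  have hzp : ZP L.X := zp
  rw [← (Equiv.addRight (1 / 2 : ℂ)).summable_iff]
  refine (liS_summable hzp hA n).congr fun s => ?_
  rw [huniq Λ hΛ]
  simp only [Function.comp, Equiv.coe_addRight]
  rw [ord_shift hzp.diff hk]
  have e1 : s + 1 / 2 - 1 - (A : ℂ) = s - 1 / 2 - A := by ring
  have e2 : s + 1 / 2 - 1 + (A : ℂ) = s - 1 / 2 + A := by ring
  rw [e1, e2]

end

end Pool.Agent.V11271.LU
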