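import Pool.Agent.V11271.LI.Pos

set_option autoImplicit false

/-!
# Positivity of Li coefficients with a far centre, uniform version
-/

namespace Pool.Agent.V11271.LU

open Complex Filter Topology
open scoped ComplexConjugate
open Pool.Agent.V11271.LI

lemma main_lowK {A : ℝ} (hA : 2 ≤ A) {z : ℂ} (hz : |z.re| ≤ 1 / 2) {n : ℕ} (hn : 1 ≤ n) {K : ℝ} (hK : 1 ≤ K)
    (h1 : n * A ≤ |z.im|) (h2 : |z.im| ≤ K * (n * A)) : 1 / (6 * K ^ 2) ≤ 1 - cs A z n := by
  have hA1 : (1 : ℝ) ≤ A := by linarith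
  have hn1 : (1 : ℝ) ≤ n := by exact_mod_cast hn
  have hne1 := add_ne hA1 hz
  have hne2 := sub_ne hA1 hz
  have hw0 := W_ne hA1 hz
  obtain ⟨g, hgdef⟩ : ∃ g : ℝ, g = |z.im| := ⟨_, rfl⟩
  rw [← hgdef] at h1 h2
  have hg : 2 ≤ g := by nlinarith
  have hgA : A ≤ g := by nlinarith
  have hg2 : z.im ^ 2 = g ^ 2 := by rw [hgdef, sq_abs]
  have hz2 : z.re ^ 2 ≤ 1 / 4 := by
    rw [← sq_abs]
    nlinarith [abs_nonneg z.re]
  obtain ⟨P, hP⟩ : ∃ P : ℝ, P = ‖z - A‖ * ‖z + A‖ := ⟨_, rfl⟩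
  have hs1 : g ≤ ‖z - A‖ := by
    have := abs_im_le_norm (z - A)
    rw [hgdef]
    simpa using this
  have hs2 : g ≤ ‖z + A‖ := by
    have := abs_im_le_norm (z + A)
    rw [hgdef]
    simpa using this
  have hPlow : g ^ 2 ≤ P := by
    rw [hP, sq]
    exact mul_le_mul hs1 hs2 (by linarith) (norm_nonneg _)
  have hPup : P ≤ g ^ 2 + A ^ 2 + 1 / 4 := by
    have e1 : ‖z - A‖ ^ 2 = (z.re - A) ^ 2 + z.im ^ 2 := by
      rw [← Complex.normSq_eq_norm_sq, Complex.normSq_apply]
      simp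
      ring
    have e2 : ‖z + A‖ ^ 2 = (z.re + A) ^ 2 + z.im ^ 2 := by
      rw [← Complex.normSq_eq_norm_sq, Complex.normSq_apply]
      simp
      ring
    have e3 : P ≤ (‖z - A‖ ^ 2 + ‖z + A‖ ^ 2) / 2 := by
      rw [hP]
      nlinarith [sq_nonneg (‖z - A‖ - ‖z + A‖)]
    rw [e1, e2, hg2] at e3
    nlinarith
  have hP0 : 0 < P := by nlinarith
  -- real and imaginary parts
  have e1 : ((‖z + A‖ ^ 2 : ℝ) : ℂ) = (z + A) * conj (z + A) := by
    rw [Complex.mul_conj, Complex.normSq_eq_norm_sq]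
  have hwe : W A z = (((‖z + A‖ ^ 2)⁻¹ : ℝ) : ℂ) * ((z - A) * conj (z + A)) := by
    rw [Complex.ofReal_inv, e1]
    unfold W
    have h3 : conj (z + A) ≠ 0 := (map_ne_zero _).mpr hne1
    field_simp
  have hre : (W A z).re = (‖z + A‖ ^ 2)⁻¹ * (z.re ^ 2 + z.im ^ 2 - A ^ 2) := by
    rw [hwe, Complex.re_ofReal_mul]
    congr 1
    simp
    ring
  have him : (W A z).im = (‖z + A‖ ^ 2)⁻¹ * (2 * A * z.im) := by
    rw [hwe, Complex.im_ofReal_mul]
    congr 1
    simp
    ring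
  have hre0 : 0 ≤ (W A z).re := by
    rw [hre]
    apply mul_nonneg (by positivity)
    rw [hg2]
    nlinarith [sq_nonneg z.re]
  obtain ⟨θ, hθ⟩ : ∃ θ : ℝ, θ = |(W A z).arg| := ⟨_, rfl⟩
  have hθ0 : 0 ≤ θ := by rw [hθ]; exact abs_nonneg _
  have hθ1 : θ ≤ Real.pi / 2 := by
    rw [hθ]
    exact Complex.abs_arg_le_pi_div_two_iff.mpr hre0
  have hsin : Real.sin θ = 2 * A * g / P := by
    have h3 : |Real.sin (W A z).arg| = Real.sin θ := by
      rw [hθ, Real.abs_sin_eq_sin_abs_of_abs_le_pi]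
      exact Complex.abs_arg_le_pi _
    rw [← h3, Complex.sin_arg, abs_div, abs_norm, him, abs_mul, abs_mul, abs_of_nonneg (by positivity),
      abs_of_nonneg (by linarith : (0:ℝ) ≤ 2 * A), ← hgdef]
    unfold W
    rw [norm_div, hP]
    have h4 : ‖z + A‖ ≠ 0 := norm_ne_zero_iff.mpr hne1
    have h5 : ‖z - A‖ ≠ 0 := norm_ne_zero_iff.mpr hne2
    field_simp
  have hup : n * θ ≤ Real.pi := by
    have h3 := Real.mul_le_sin hθ0 hθ1
    rw [hsin] at h3
    have hpi := Real.pi_pos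
    have h4 : θ ≤ Real.pi / 2 * (2 * A * g / P) := by
      have h5 : 2 / Real.pi * θ * (Real.pi / 2) = θ := by field_simp
      have h6 := mul_le_mul_of_nonneg_right h3 (show 0 ≤ Real.pi / 2 by positivity)
      rw [h5] at h6
      linarith
    have h5 : 2 * A * g / P ≤ 2 * A / g := by
      rw [div_le_div_iff₀ hP0 (by linarith)]
      nlinarith
    have h6 : (n : ℝ) * (2 * A / g) ≤ 2 := by
      rw [mul_div_assoc', div_le_iff₀ (by linarith)]
      nlinarith
    calc n * θ ≤ n * (Real.pi / 2 * (2 * A / g)) := by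
          apply mul_le_mul_of_nonneg_left _ (by linarith)
          refine h4.trans ?_
          gcongr
      _ = Real.pi / 2 * (n * (2 * A / g)) := by ring
      _ ≤ Real.pi / 2 * 2 := by gcongr
      _ = Real.pi := by ring
  have hlo : 24 / 25 / K ≤ n * θ := by
    have h3 : 2 * A * g / P ≤ θ := by
      rw [← hsin]
      exact Real.sin_le hθ0
    have h4 : 24 / 25 / K ≤ n * (2 * A * g / P) := by
      rw [mul_div_assoc', div_div, div_le_div_iff₀ (by positivity) hP0]
      have h5 : P ≤ 33 / 16 * g ^ 2 := by nlinarith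
      have h6 : g * g ≤ g * (K * (n * A)) := mul_le_mul_of_nonneg_left h2 (by linarith)
      nlinarith
    calc (24 / 25 / K : ℝ) ≤ n * (2 * A * g / P) := h4
      _ ≤ n * θ := by gcongr
  have hcs : cs A z n = Real.cos (n * θ) := by
    unfold cs
    rw [hθ, ← Real.cos_abs (n * (W A z).arg), abs_mul, abs_of_nonneg (Nat.cast_nonneg n : (0:ℝ) ≤ n)]
  rw [hcs]
  have h0 : 0 ≤ n * θ := by positivity
  have h3 := Real.cos_le_one_sub_mul_cos_sq (x := n * θ) (by rw [abs_of_nonneg h0]; exact hup)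
  have hpi : Real.pi ^ 2 ≤ 10 := by
    have h4 := Real.pi_lt_d2
    have h5 := Real.pi_pos
    nlinarith
  have h4 : 2 / 10 ≤ 2 / Real.pi ^ 2 := by
    apply div_le_div_of_nonneg_left (by norm_num) (by positivity) hpi
  have h5 : (24 / 25 / K : ℝ) ^ 2 ≤ (n * θ) ^ 2 := by gcongr
  have h6 : 2 / 10 * (24 / 25 / K : ℝ) ^ 2 ≤ 2 / Real.pi ^ 2 * (n * θ) ^ 2 := by gcongr
  have h7 : 1 / (6 * K ^ 2) ≤ 2 / 10 * (24 / 25 / K : ℝ) ^ 2 := by
    rw [div_pow, mul_div_assoc', div_le_div_iff₀ (by positivity) (by positivity)]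
    nlinarith [sq_nonneg K]
  linarith

/-- the positivity theorem, uniform version -/
theorem pos_unif {κ c K T0 B0 η D : ℝ} (hκ : 0 < κ) (hc : 0 < c) (hK : 1 ≤ K) (hη : 0 < η) (hB00 : 0 ≤ B0)
    (hD0 : 0 ≤ D) :
    ∃ A0 : ℝ, 2 ≤ A0 ∧ ∀ (ι : Type) (z : ι → ℂ) (m : ι → ℝ) (M : ℝ), 0 < M → Cfg z m →
      (∀ S : Finset ι, ∑ i ∈ S, m i / (1 + |(z i).im|) ^ (3 / 2 : ℝ) ≤ B0 * M) →
      (∀ T : ℝ, T0 ≤ T → ∃ S : Finset ι, (∀ i ∈ S, T ≤ |(z i).im| ∧ |(z i).im| ≤ K * T) ∧
        c * M * T ≤ ∑ i ∈ S, m i) →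
      (∀ A : ℝ, 1 ≤ A → ∀ S : Finset ι, (∀ i ∈ S, |(z i).im| ≤ A ^ (1 + η)) →
        ∑ i ∈ S, m i * A ^ (2 * κ * |(z i).re|) ≤ D * M * A ^ (2 - η)) →
      ∀ A : ℝ, A0 ≤ A → ∀ n : ℕ, 1 ≤ n → n ≤ κ * A * Real.log A →
        c / (12 * K ^ 2) * M * (n * A) ≤ lam z m A n := by
  have ev1 : ∀ᶠ A : ℝ in atTop, 2 ≤ A := eventually_ge_atTop 2
  have ev2 : ∀ᶠ A : ℝ in atTop, T0 ≤ A := eventually_ge_atTop T0
  have ev3 : ∀ᶠ A : ℝ in atTop, κ * Real.log A ≤ A ^ (2 * η) := by
    have h := (isLittleO_log_rpow_atTop (show 0 < 2 * η by linarith)).bound (show 0 < κ⁻¹ by positivity)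
    filter_upwards [h, eventually_ge_atTop 1] with A h1 h2
    rw [Real.norm_eq_abs, Real.norm_eq_abs, abs_of_nonneg (Real.log_nonneg h2),
      abs_of_nonneg (Real.rpow_nonneg (by linarith) _)] at h1
    calc κ * Real.log A ≤ κ * (κ⁻¹ * A ^ (2 * η)) := by gcongr
      _ = A ^ (2 * η) := by field_simp
  have ev4 : ∀ᶠ A : ℝ in atTop, 4 * κ * Real.log A ≤ A := by
    have h := Real.isLittleO_log_id_atTop.bound (show 0 < (4 * κ)⁻¹ by positivity)
    filter_upwards [h, eventually_ge_atTop 1] with A h1 h2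
    rw [Real.norm_eq_abs, Real.norm_eq_abs, abs_of_nonneg (Real.log_nonneg h2), id,
      abs_of_nonneg (by linarith)] at h1
    calc 4 * κ * Real.log A ≤ 4 * κ * ((4 * κ)⁻¹ * A) := by gcongr
      _ = A := by field_simp
  obtain ⟨q, hq⟩ : ∃ q : ℝ, q = c / (24 * K ^ 2) := ⟨_, rfl⟩
  have hq0 : 0 < q := by rw [hq]; positivity
  have ev5 : ∀ᶠ A : ℝ in atTop, Real.exp 1 * D * 4 * A ^ (-η) ≤ q := by
    have h := (tendsto_rpow_neg_atTop hη).const_mul (Real.exp 1 * D * 4)
    rw [mul_zero] at h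
    exact h.eventually_le_const (by positivity)
  have ev6 : ∀ᶠ A : ℝ in atTop, (8 : ℝ) ^ (3 / 4 : ℝ) * B0 ≤ q * A ^ (1 / 4 : ℝ) := by
    have h := (tendsto_rpow_atTop (show (0 : ℝ) < 1 / 4 by norm_num)).const_mul_atTop
      (show 0 < q by positivity)
    exact h.eventually_ge_atTop _
  obtain ⟨A0, hA0⟩ := eventually_atTop.mp
    (((((ev1.and ev2).and ev3).and ev4).and ev5).and ev6)
  refine ⟨max A0 2, le_max_right _ _, fun ι z m M hM C hsum hT0 hD A hA n hn hnA => ?_⟩
  obtain ⟨⟨⟨⟨⟨a1, a2⟩, a3⟩, a4⟩, a5⟩, a6⟩ := hA0 A ((le_max_left _ _).trans hA)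
  have hA1 : (1 : ℝ) ≤ A := by linarith
  have hn1 : (1 : ℝ) ≤ n := by exact_mod_cast hn
  obtain ⟨Y, hY⟩ : ∃ Y : ℝ, Y = n * A := ⟨_, rfl⟩
  have hYA : A ≤ Y := by rw [hY]; nlinarith
  have hY0 : 0 < Y := by linarith
  obtain ⟨S1, hS1, hS1m⟩ := hT0 Y (by linarith)
  have hlog0 : 0 ≤ Real.log A := Real.log_nonneg hA1
  -- the exceptional set
  have hF : ∃ F : Finset ι, (∀ i ∉ F, |xx A (z i) n| ≤ 1) ∧
      ∑ i ∈ F, m i * (Real.cosh (xx A (z i) n) - 1) ≤ q * M * Y := by
    rcases le_or_gt Y ((A - 1 / 2) ^ 2) with hcase | hcase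
    · refine ⟨∅, fun i _ => ?_, by simp; positivity⟩
      apply xx_le_one_of hA1 (C.re_le i)
      rw [← hY]
      nlinarith [sq_nonneg (z i).im]
    · refine ⟨(C.finite (Real.sqrt Y)).toFinset, fun i hi => ?_, ?_⟩
      · apply xx_le_one_of hA1 (C.re_le i)
        rw [← hY]
        simp only [Set.Finite.mem_toFinset, Set.mem_ofPred_eq, not_le] at hi
        have h1 : Y ≤ (z i).im ^ 2 := by
          rw [← sq_abs, ← Real.sq_sqrt hY0.le]
          gcongr
        nlinarith [sq_nonneg (A - 1 / 2)]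
      · have hYu : Y ≤ κ * A ^ 2 * Real.log A := by
          rw [hY]
          calc n * A ≤ (κ * A * Real.log A) * A := by gcongr
            _ = _ := by ring
        have hS : ∀ i ∈ (C.finite (Real.sqrt Y)).toFinset, |(z i).im| ≤ A ^ (1 + η) := by
          intro i hi
          simp only [Set.Finite.mem_toFinset, Set.mem_ofPred_eq] at hi
          refine hi.trans ?_
          rw [Real.sqrt_le_left (by positivity)]
          calc Y ≤ κ * A ^ 2 * Real.log A := hYu
            _ = A ^ 2 * (κ * Real.log A) := by ring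
            _ ≤ A ^ 2 * A ^ (2 * η) := by gcongr
            _ = (A ^ (1 + η)) ^ 2 := by
              rw [← Real.rpow_natCast, ← Real.rpow_natCast, ← Real.rpow_mul (by linarith),
                ← Real.rpow_add (by linarith)]
              congr 1
              push_cast
              ring
        have hb : ∀ i ∈ (C.finite (Real.sqrt Y)).toFinset,
            m i * (Real.cosh (xx A (z i) n) - 1) ≤ Real.exp 1 * (m i * A ^ (2 * κ * |(z i).re|)) := by
          intro i _
          have h1 : |xx A (z i) n| ≤ 2 * κ * |(z i).re| * Real.log A + 1 := by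
            have hq : 0 < (A - 1 / 2) ^ 2 := by
              have : 0 < A - 1 / 2 := by linarith
              positivity
            have hr := C.re_le i
            calc |xx A (z i) n| ≤ 2 * n * A * |(z i).re| / ((A - 1 / 2) ^ 2 + (z i).im ^ 2) :=
                  xx_le hA1 (C.re_le i) n
              _ = 2 * Y * |(z i).re| / ((A - 1 / 2) ^ 2 + (z i).im ^ 2) := by rw [hY]; ring
              _ ≤ 2 * (κ * A ^ 2 * Real.log A) * |(z i).re| / ((A - 1 / 2) ^ 2) := by
                  gcongr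
                  nlinarith [sq_nonneg (z i).im]
              _ ≤ 2 * κ * |(z i).re| * Real.log A + 1 := by
                  rw [div_le_iff₀ hq]
                  have h2 : κ * Real.log A * (A ^ 2 - (A - 1 / 2) ^ 2) ≤ (A - 1 / 2) ^ 2 := by
                    calc κ * Real.log A * (A ^ 2 - (A - 1 / 2) ^ 2) ≤ A / 4 * (A ^ 2 - (A - 1 / 2) ^ 2) := by
                          have h3 : 0 ≤ A ^ 2 - (A - 1 / 2) ^ 2 := by nlinarith
                          have h4 : κ * Real.log A ≤ A / 4 := by linarith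
                          gcongr
                      _ ≤ (A - 1 / 2) ^ 2 := by nlinarith
                  have h3 : 0 ≤ |(z i).re| := abs_nonneg _
                  have h4 : 0 ≤ κ * Real.log A * (A ^ 2 - (A - 1 / 2) ^ 2) := by
                    have h3 : 0 ≤ A ^ 2 - (A - 1 / 2) ^ 2 := by nlinarith
                    positivity
                  nlinarith
          calc m i * (Real.cosh (xx A (z i) n) - 1) ≤ m i * Real.exp (2 * κ * |(z i).re| * Real.log A + 1) := by
                apply mul_le_mul_of_nonneg_left _ (C.m_nonneg i)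
                have h2 := cosh_le_exp_abs (xx A (z i) n)
                have h3 := Real.exp_le_exp.mpr h1
                linarith
            _ = _ := by
                rw [Real.exp_add, Real.rpow_def_of_pos (by linarith)]
                ring_nf
        calc ∑ i ∈ (C.finite (Real.sqrt Y)).toFinset, m i * (Real.cosh (xx A (z i) n) - 1)
            ≤ ∑ i ∈ (C.finite (Real.sqrt Y)).toFinset, Real.exp 1 * (m i * A ^ (2 * κ * |(z i).re|)) :=
              Finset.sum_le_sum hb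
          _ = Real.exp 1 * ∑ i ∈ (C.finite (Real.sqrt Y)).toFinset, m i * A ^ (2 * κ * |(z i).re|) := by
              rw [Finset.mul_sum]
          _ ≤ Real.exp 1 * (D * M * A ^ (2 - η)) := by
              gcongr
              exact hD A hA1 _ hS
          _ = Real.exp 1 * D * A ^ (-η) * A ^ 2 * M := by
              rw [sub_eq_add_neg, Real.rpow_add (by linarith)]
              norm_num
              ring
          _ ≤ Real.exp 1 * D * A ^ (-η) * (4 * Y) * M := by
              have : A ^ 2 ≤ 4 * Y := by nlinarith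
              gcongr
          _ = (Real.exp 1 * D * 4 * A ^ (-η)) * (M * Y) := by ring
          _ ≤ q * (M * Y) := by gcongr
          _ = q * M * Y := by ring
  obtain ⟨F, hF1, hF2⟩ := hF
  have hmain := C.lam_eq hA1 n
  rw [← hY]
  refine ge_of_tendsto (hmain) ?_
  classical
  filter_upwards [eventually_ge_atTop (S1 ∪ F)] with S hS
  have hS1S : S1 ⊆ S := Finset.subset_union_left.trans hS
  have hFS : F ⊆ S := Finset.subset_union_right.trans hS
  have hcs1 : ∀ i, 0 ≤ 1 - cs A (z i) n := fun i => by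
    have := Real.cos_le_one (n * (W A (z i)).arg)
    unfold cs
    linarith
  have t1 : 4 * q * M * Y ≤ ∑ i ∈ S, m i * (1 - cs A (z i) n) := by
    calc 4 * q * M * Y = (c * M * Y) * (1 / (6 * K ^ 2)) := by
          rw [hq]
          have : K ≠ 0 := by positivity
          field_simp
          ring
      _ ≤ (∑ i ∈ S1, m i) * (1 / (6 * K ^ 2)) := by gcongr
      _ = ∑ i ∈ S1, m i * (1 / (6 * K ^ 2)) := by rw [Finset.sum_mul]
      _ ≤ ∑ i ∈ S1, m i * (1 - cs A (z i) n) := by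
          apply Finset.sum_le_sum
          intro i hi
          obtain ⟨h1, h2⟩ := hS1 i hi
          rw [hY] at h1 h2
          exact mul_le_mul_of_nonneg_left (main_lowK a1 (C.re_le i) hn hK h1 h2) (C.m_nonneg i)
      _ ≤ ∑ i ∈ S, m i * (1 - cs A (z i) n) :=
          Finset.sum_le_sum_of_subset_of_nonneg hS1S fun i _ _ => mul_nonneg (C.m_nonneg i) (hcs1 i)
  have t2 : ∑ i ∈ S, m i * (Real.cosh (xx A (z i) n) - 1) ≤ q * M * Y + q * M * Y := by
    rw [← Finset.sum_sdiff hFS]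
    have t3 : ∑ i ∈ S \ F, m i * (Real.cosh (xx A (z i) n) - 1) ≤ q * M * Y := by
      calc ∑ i ∈ S \ F, m i * (Real.cosh (xx A (z i) n) - 1)
          ≤ ∑ i ∈ S \ F, (8 * Y) ^ (3 / 4 : ℝ) * (m i / (1 + |(z i).im|) ^ (3 / 2 : ℝ)) := by
            apply Finset.sum_le_sum
            intro i hi
            have h1 := near_bound hA1 (C.re_le i) (hF1 i (Finset.mem_sdiff.mp hi).2)
            calc m i * (Real.cosh (xx A (z i) n) - 1) ≤
                m i * ((8 * (n * A)) ^ (3 / 4 : ℝ) / (1 + |(z i).im|) ^ (3 / 2 : ℝ)) :=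
                  mul_le_mul_of_nonneg_left h1 (C.m_nonneg i)
              _ = _ := by rw [hY]; ring
        _ = (8 * Y) ^ (3 / 4 : ℝ) * ∑ i ∈ S \ F, m i / (1 + |(z i).im|) ^ (3 / 2 : ℝ) := by
            rw [Finset.mul_sum]
        _ ≤ (8 * Y) ^ (3 / 4 : ℝ) * (B0 * M) := by
            apply mul_le_mul_of_nonneg_left _ (by positivity)
            exact hsum _
        _ = ((8 : ℝ) ^ (3 / 4 : ℝ) * B0) * Y ^ (3 / 4 : ℝ) * M := by
            rw [Real.mul_rpow (by norm_num) hY0.le]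
            ring
        _ ≤ (q * A ^ (1 / 4 : ℝ)) * Y ^ (3 / 4 : ℝ) * M := by gcongr
        _ ≤ (q * Y ^ (1 / 4 : ℝ)) * Y ^ (3 / 4 : ℝ) * M := by gcongr
        _ = q * M * (Y ^ (1 / 4 : ℝ) * Y ^ (3 / 4 : ℝ)) := by ring
        _ = q * M * Y := by
            rw [← Real.rpow_add hY0]
            norm_num
    linarith
  have t4 : ∑ i ∈ S, m i * (((1 - W A (z i) ^ n).re + (1 - W A (-conj (z i)) ^ n).re) / 2) ≥
      ∑ i ∈ S, m i * (1 - cs A (z i) n) - ∑ i ∈ S, m i * (Real.cosh (xx A (z i) n) - 1) := by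
    rw [← Finset.sum_sub_distrib]
    apply Finset.sum_le_sum
    intro i _
    have h1 := pair_low hA1 (C.re_le i) n
    calc m i * (1 - cs A (z i) n) - m i * (Real.cosh (xx A (z i) n) - 1) =
        m i * ((1 - cs A (z i) n) - (Real.cosh (xx A (z i) n) - 1)) := by ring
      _ ≤ _ := mul_le_mul_of_nonneg_left h1 (C.m_nonneg i)
  have e : c / (12 * K ^ 2) * M * Y = 2 * q * M * Y := by
    rw [hq]
    have : K ≠ 0 := by positivity
    field_simp
    ring
  rw [e]
  linarith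

end Pool.Agent.V11271.LU
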