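import Pool.Agent.V11271.LU.Win
import Pool.Agent.V11271.LU.Pos
import Pool.Agent.V11271.LI.Neg

set_option autoImplicit false
set_option linter.unusedSectionVars false
set_option maxHeartbeats 2000000

/-!
# Li coefficients with a far centre: uniform positivity for L-functions
-/

open Complex Filter Topology
open scoped ComplexConjugate

namespace Pool.Agent.V11271.LU

open Pool.Agent.Y23 Pool.Agent.Y23.G H353.E

section

variable [L : LFun]

/-- the zeros, shifted to the imaginary axis and scaled -/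
noncomputable def zh (ρ : Zt) : ℂ := ((ρ : ℂ) - 1 / 2) / 2

/-- the multiplicities -/
noncomputable def mh (ρ : Zt) : ℝ := (mu (ρ : ℂ) : ℝ)

lemma zh_re (ρ : Zt) : (zh ρ).re = ((ρ : ℂ).re - 1 / 2) / 2 := by
  unfold zh
  rw [show (2 : ℂ) = ((2 : ℝ) : ℂ) by norm_num, Complex.div_ofReal_re]
  simp

lemma zh_im (ρ : Zt) : (zh ρ).im = (ρ : ℂ).im / 2 := by
  unfold zh
  rw [show (2 : ℂ) = ((2 : ℝ) : ℂ) by norm_num, Complex.div_ofReal_im]
  simp

lemma zh_refl (ρ : Zt) : zh (rfZ ρ) = -conj (zh ρ) := by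
  unfold zh
  rw [rfZ_sub, map_div₀, map_ofNat]
  ring

lemma mh_refl (ρ : Zt) : mh (rfZ ρ) = mh ρ := by
  unfold mh
  rw [mu_rfZ]

lemma mh_one (ρ : Zt) : 1 ≤ mh ρ := by
  unfold mh
  exact_mod_cast X_mpos ρ.2

lemma mh_nonneg (ρ : Zt) : 0 ≤ mh ρ := by linarith [mh_one ρ]

lemma loc_zh : LI.Loc (zh (L := L)) mh := by
  have hCN := CN_pos
  have hq := one_le_MM (L := L)
  refine ⟨8 * CN * (8 * MM), by positivity, fun n S hS => ?_⟩
  have h := cnt_int (L := L) (X := 2) (by norm_num) (2 * n) S (fun ρ hρ => by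
    have h1 := hS ρ hρ
    rw [zh_im] at h1
    have h2 := Int.floor_le ((ρ : ℂ).im / 2)
    have h3 := Int.lt_floor_add_one ((ρ : ℂ).im / 2)
    rw [h1] at h2 h3
    rw [abs_le]
    constructor <;> linarith)
  refine h.trans ?_
  have h1 := qq_le_MM (L := L) (|(2 * n : ℝ)| + 2 + 1)
  have h2 : 1 + Lg (|(2 * n : ℝ)| + 2 + 1) ≤ 8 * Real.log (2 + |(n : ℝ)|) := by
    unfold Lg
    have hn := abs_nonneg (n : ℝ)
    rw [abs_of_nonneg (show (0 : ℝ) ≤ |(2 * n : ℝ)| + 2 + 1 by positivity), abs_mul, abs_two]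
    have h3 : Real.log (3 + (2 * |(n : ℝ)| + 2 + 1)) ≤ Real.log (2 + |(n : ℝ)|) + Real.log 3 := by
      rw [← Real.log_mul (by positivity) (by norm_num)]
      apply Real.log_le_log (by positivity)
      linarith
    have h4 : Real.log 3 ≤ 2 * Real.log 2 := by
      have : 2 * Real.log 2 = Real.log 4 := by
        rw [show (4 : ℝ) = 2 ^ 2 by norm_num, Real.log_pow]
        push_cast
        ring
      rw [this]
      exact Real.log_le_log (by norm_num) (by norm_num)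
    have h5 : Real.log 2 ≤ Real.log (2 + |(n : ℝ)|) := Real.log_le_log (by norm_num) (by linarith)
    have h6 := Real.log_two_gt_d9
    linarith
  calc 4 * 2 * (CN * qq (|(2 * n : ℝ)| + 2 + 1)) ≤ 4 * 2 * (CN * (MM * (1 + Lg (|(2 * n : ℝ)| + 2 + 1)))) := by
        gcongr
    _ ≤ 4 * 2 * (CN * (MM * (8 * Real.log (2 + |(n : ℝ)|)))) := by gcongr
    _ = _ := by ring

/-- the configuration of the zeros -/
lemma cfg_zh : LI.Cfg (zh (L := L)) mh where
  one_le := mh_one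
  re_le ρ := by
    rw [zh_re, abs_div, abs_two]
    have := X_strip ρ.2
    linarith
  sum s hs := LI.sum_of_loc mh_nonneg loc_zh s hs
  symm := ⟨rfZ, zh_refl, mh_refl⟩

/-- the Li coefficients with centre `1/2 + A` -/
noncomputable def li (A : ℝ) (n : ℕ) : ℝ :=
  ∑' ρ : Zt, (mu (ρ : ℂ) : ℝ) * (1 - (((ρ : ℂ) - 1 / 2 - A) / ((ρ : ℂ) - 1 / 2 + A)) ^ n).re

lemma li_eq (A : ℝ) (n : ℕ) : li A n = LI.lam (zh (L := L)) mh (A / 2) n := by
  unfold li LI.lam mh zh LI.W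
  congr 1
  funext ρ
  have h2 : (2 : ℂ) ≠ 0 := two_ne_zero
  have e1 : ((ρ : ℂ) - 1 / 2) / 2 - ((A / 2 : ℝ) : ℂ) = ((ρ : ℂ) - 1 / 2 - A) / 2 := by push_cast; ring
  have e2 : ((ρ : ℂ) - 1 / 2) / 2 + ((A / 2 : ℝ) : ℂ) = ((ρ : ℂ) - 1 / 2 + A) / 2 := by push_cast; ring
  rw [e1, e2, div_div_div_cancel_right₀ h2]

lemma li_summable {A : ℝ} (hA : 2 ≤ A) (n : ℕ) :
    Summable fun ρ : Zt => (mu (ρ : ℂ) : ℝ) * (1 - (((ρ : ℂ) - 1 / 2 - A) / ((ρ : ℂ) - 1 / 2 + A)) ^ n).re := by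
  refine ((cfg_zh (L := L)).summable_lam (A := A / 2) (by linarith) n).congr fun ρ => ?_
  unfold mh zh LI.W
  have h2 : (2 : ℂ) ≠ 0 := two_ne_zero
  have e1 : ((ρ : ℂ) - 1 / 2) / 2 - ((A / 2 : ℝ) : ℂ) = ((ρ : ℂ) - 1 / 2 - A) / 2 := by push_cast; ring
  have e2 : ((ρ : ℂ) - 1 / 2) / 2 + ((A / 2 : ℝ) : ℂ) = ((ρ : ℂ) - 1 / 2 + A) / 2 := by push_cast; ring
  rw [e1, e2, div_div_div_cancel_right₀ h2]

/-- a zero-free region from positivity -/
theorem li_neg {κ : ℝ} (hκ : 0 < κ) (h : ∃ A0 : ℝ, ∀ A : ℝ, A0 ≤ A → ∀ n : ℕ, 1 ≤ n → n ≤ κ * A * Real.log A →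
    0 ≤ li A n) (ρ : Zt) : |(ρ : ℂ).re - 1 / 2| ≤ 1 / κ := by
  obtain ⟨A0, hA0⟩ := h
  have h1 := (cfg_zh (L := L)).neg (κ := 2 * κ) ⟨max (A0 / 2) 1, fun A hA n hn hnA => by
    have hA1 : 1 ≤ A := (le_max_right _ _).trans hA
    have hA2 : A0 / 2 ≤ A := (le_max_left _ _).trans hA
    have h2 := hA0 (2 * A) (by linarith) n hn (by
      refine hnA.trans ?_
      have h3 : Real.log A ≤ Real.log (2 * A) := Real.log_le_log (by linarith) (by linarith)
      calc 2 * κ * A * Real.log A ≤ 2 * κ * A * Real.log (2 * A) := by gcongr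
        _ = _ := by ring)
    rw [li_eq, mul_div_cancel_left₀ A two_ne_zero] at h2
    exact h2⟩ ρ
  rw [zh_re, abs_div, abs_two] at h1
  rw [le_div_iff₀ hκ]
  linarith

end

/-- uniform positivity -/
theorem li_pos {h κ : ℝ} (hh : 0 < h) (hκ : 0 < κ) (hhκ : 2 * h * κ < 1) : ∃ c A0 : ℝ, 0 < c ∧ 2 ≤ A0 ∧
    ∀ [L : LFun], (∀ s : ℂ, L.X s = 0 → |s.re - 1 / 2| ≤ h) → ∀ A : ℝ, A0 ≤ A → ∀ n : ℕ, 1 ≤ n →
      n ≤ κ * A * Real.log A → c * (MM * (n * A)) ≤ li A n := by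
  obtain ⟨K, c, T0, hK, hc, hT0, hwin⟩ := win_cnt
  obtain ⟨C, hC, hw⟩ := wsum
  obtain ⟨C2, hC2, htot⟩ := tot_cnt
  -- the exponent
  obtain ⟨κ', hκ'⟩ : ∃ κ' : ℝ, κ' = κ + 1 / (2 * h) := ⟨_, rfl⟩
  have hκ0 : 0 < κ' := by rw [hκ']; positivity
  have hκ1 : κ' * h < 1 := by
    rw [hκ', add_mul]
    have : 1 / (2 * h) * h = 1 / 2 := by field_simp
    rw [this]
    linarith
  have hκ2 : 2 * κ < κ' := by
    rw [hκ']
    have : κ < 1 / (2 * h) := by
      rw [lt_div_iff₀ (by positivity)]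
      linarith
    linarith
  obtain ⟨η, hη⟩ : ∃ η : ℝ, η = (1 - κ' * h) / 3 := ⟨_, rfl⟩
  have hη0 : 0 < η := by rw [hη]; linarith
  obtain ⟨D, hD⟩ : ∃ D : ℝ, D = C2 * (2 * (4 + (1 + η) / η)) := ⟨_, rfl⟩
  have hD0 : 0 < D := by rw [hD]; positivity
  obtain ⟨A1, hA1, hpos⟩ := pos_unif (κ := κ') (c := 2 * c) (K := K) (T0 := T0) (B0 := 6 * C) (η := η) (D := D)
    hκ0 (by positivity) hK hη0 (by positivity) hD0.le
  have hev : ∀ᶠ A : ℝ in atTop, 2 * κ * Real.log 2 / (κ' - 2 * κ) ≤ Real.log A :=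
    Real.tendsto_log_atTop.eventually_ge_atTop _
  obtain ⟨A2, hA2⟩ := eventually_atTop.mp hev
  refine ⟨2 * c / (12 * K ^ 2) / 2, max (2 * A1) (2 * A2), by positivity, by
    have := le_max_left (2 * A1) (2 * A2)
    linarith, ?_⟩
  intro L hzf A hA n hn hnA
  have hM := one_le_MM (L := L)
  have hAA1 : A1 ≤ A / 2 := by
    have := (le_max_left (2 * A1) (2 * A2)).trans hA
    linarith
  have hAA2 : A2 ≤ A / 2 := by
    have := (le_max_right (2 * A1) (2 * A2)).trans hA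
    linarith
  have hA2' : 2 ≤ A / 2 := hA1.trans hAA1
  have hmain := hpos Zt zh mh MM (by linarith) cfg_zh (fun S => by
    have h1 := hw (L := L) 2 (by norm_num) S
    have h2 : ∑ ρ ∈ S, mh ρ / (1 + |(zh ρ).im|) ^ (3 / 2 : ℝ) =
        ∑ ρ ∈ S, (mu (ρ : ℂ) : ℝ) / (1 + |(ρ : ℂ).im / 2|) ^ (3 / 2 : ℝ) := by
      refine Finset.sum_congr rfl fun ρ _ => ?_
      rw [zh_im]
      rfl
    rw [h2]
    refine h1.trans ?_
    have h3 := qq_le_MM (L := L) 2
    have h4 : Lg 2 ≤ 2 := by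
      unfold Lg
      rw [Real.log_le_iff_le_exp (by positivity), abs_of_pos (by norm_num : (0 : ℝ) < 2)]
      have h5 := Real.exp_one_gt_d9
      have h6 : Real.exp 2 = Real.exp 1 * Real.exp 1 := by rw [← Real.exp_add]; norm_num
      rw [h6]
      nlinarith
    have h5 : qq 2 ≤ MM * 3 := by nlinarith
    nlinarith) (fun T hT => by
    obtain ⟨S, hS1, hS2⟩ := hwin (L := L) (2 * T) (by linarith)
    refine ⟨S, fun ρ hρ => ?_, ?_⟩
    · obtain ⟨g1, g2⟩ := hS1 ρ hρ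
      rw [zh_im, abs_div, abs_two]
      constructor <;> linarith
    · have e : ∑ ρ ∈ S, mh ρ = ∑ ρ ∈ S, (mu (ρ : ℂ) : ℝ) := rfl
      rw [e]
      refine le_trans (le_of_eq ?_) hS2
      ring) (fun B hB S hS => by
    have hB0 : 0 < B := by linarith
    have hre : ∀ ρ : Zt, |(zh ρ).re| ≤ h / 2 := by
      intro ρ
      rw [zh_re, abs_div, abs_two]
      have := hzf ρ ρ.2
      linarith
    have h1 : ∀ ρ ∈ S, mh ρ * B ^ (2 * κ' * |(zh ρ).re|) ≤ mh ρ * B ^ (κ' * h) := by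
      intro ρ _
      apply mul_le_mul_of_nonneg_left _ (mh_nonneg ρ)
      apply Real.rpow_le_rpow_of_exponent_le hB
      have := hre ρ
      nlinarith
    refine (Finset.sum_le_sum h1).trans ?_
    rw [← Finset.sum_mul]
    obtain ⟨T, hT⟩ : ∃ T : ℝ, T = 2 * B ^ (1 + η) := ⟨_, rfl⟩
    have hBp : 1 ≤ B ^ (1 + η) := Real.one_le_rpow hB (by linarith)
    have hT1 : 1 ≤ T := by rw [hT]; linarith
    have h2 : ∑ ρ ∈ S, mh ρ ≤ C2 * (T * qq T) := by
      have e : ∑ ρ ∈ S, mh ρ = ∑ ρ ∈ S, (mu (ρ : ℂ) : ℝ) := rfl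
      rw [e]
      apply htot T hT1
      intro ρ hρ
      have h3 := hS ρ hρ
      rw [zh_im, abs_div, abs_two] at h3
      rw [hT]
      linarith
    have h3 : qq T ≤ MM * ((4 + (1 + η) / η) * B ^ η) := by
      refine (qq_le_MM T).trans ?_
      gcongr
      have h4 : Lg T ≤ 3 + (1 + η) * Real.log B := by
        unfold Lg
        rw [abs_of_nonneg (by linarith)]
        have h5 : 3 + T ≤ 5 * B ^ (1 + η) := by rw [hT]; linarith
        have h6 := Real.log_le_log (by linarith) h5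
        rw [Real.log_mul (by norm_num) (by positivity), Real.log_rpow hB0] at h6
        have h7 : Real.log 5 ≤ 3 := by
          rw [Real.log_le_iff_le_exp (by norm_num)]
          have h8 := Real.add_one_le_exp (3 : ℝ)
          have h9 := Real.exp_one_gt_d9
          have h10 : Real.exp 3 = Real.exp 1 * Real.exp 1 * Real.exp 1 := by
            rw [← Real.exp_add, ← Real.exp_add]; norm_num
          rw [h10]
          nlinarith
        linarith
      have h5 : Real.log B ≤ B ^ η / η := Real.log_le_rpow_div hB0.le hη0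
      have h6 : 1 ≤ B ^ η := Real.one_le_rpow hB hη0.le
      calc 1 + Lg T ≤ 4 + (1 + η) * Real.log B := by linarith
        _ ≤ 4 * B ^ η + (1 + η) * (B ^ η / η) := by
            have h7 : (1 + η) * Real.log B ≤ (1 + η) * (B ^ η / η) := by gcongr
            linarith
        _ = _ := by ring
    calc (∑ ρ ∈ S, mh ρ) * B ^ (κ' * h) ≤ (C2 * (T * (MM * ((4 + (1 + η) / η) * B ^ η)))) * B ^ (κ' * h) := by
          gcongr
          exact h2.trans (by gcongr)
      _ = D * MM * (B ^ (1 + η) * B ^ η * B ^ (κ' * h)) := by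
          rw [hT, hD]
          ring
      _ ≤ D * MM * B ^ (2 - η) := by
          gcongr
          rw [← Real.rpow_add hB0, ← Real.rpow_add hB0]
          apply Real.rpow_le_rpow_of_exponent_le hB
          rw [hη]
          linarith) (A / 2) hAA1 n hn (by
    refine hnA.trans ?_
    have h1 := hA2 (A / 2) hAA2
    rw [div_le_iff₀ (by linarith)] at h1
    have h2 : Real.log A = Real.log (A / 2) + Real.log 2 := by
      rw [← Real.log_mul (by linarith) (by norm_num)]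
      congr 1
      ring
    rw [h2]
    nlinarith)
  rw [li_eq]
  refine le_trans (le_of_eq ?_) hmain
  ring

end Pool.Agent.V11271.LU
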