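import Pool.Agent.V11271.LU.Prod
import Pool.Agent.W355.UN.Inst

set_option autoImplicit false
set_option linter.unusedSectionVars false
set_option maxHeartbeats 2000000

/-!
# L-functions whose traces are bounded by the degree
-/

open Complex Filter Topology
open scoped ComplexConjugate

namespace Pool.Agent.V11271.LU

open Pool.Agent.Y23 Pool.Agent.Y23.G Pool.Agent.W355.UN Pool.Agent.TH839.NA

section

variable {m r : ℕ} {N : ℝ} {a : Fin m → ℂ} {b c : ℕ → ℂ} {X : ℂ → ℂ}

lemma cut_conv (h : Conv b c) : Conv b fun n => if n = 0 then 0 else c n := by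
  intro n hn
  rw [h n hn]
  refine Finset.sum_congr rfl fun d hd => ?_
  simp only
  rw [if_neg (Nat.pos_of_mem_divisors hd).ne']

/-- an instance of the class -/
@[reducible] noncomputable def ofRaw (h : Raw m r N a b c X) (ha : ∀ j, -1 / 2 < (a j).re) : LFun where
  m := m
  r := r
  N := N
  a := a
  b := b
  c := fun n => if n = 0 then 0 else c n
  X := X
  raw := by
    refine ⟨h.hm, h.hr, h.hN, by norm_num, by norm_num, h.re_ge, h.entire, h.order, h.fe, h.one, fun n => ?_,
      cut_conv h.conv, h.eq⟩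
    by_cases hn : n = 0
    · rw [if_pos hn, norm_zero]
      positivity
    · rw [if_neg hn]
      have h1 : (1 : ℝ) ≤ (n : ℝ) ^ (1 / 2 : ℝ) := by
        apply Real.one_le_rpow _ (by norm_num)
        exact_mod_cast Nat.one_le_iff_ne_zero.mpr hn
      have h2 : (0 : ℝ) ≤ m := Nat.cast_nonneg _
      have h3 := h.cb n
      nlinarith
  str := ha

lemma raw0 (h : Raw m r N a b c X) : RawT 0 m r N a b c X :=
  ⟨h.hm, h.hr, h.hN, le_rfl, one_pos, h.re_ge, h.entire, h.order, h.fe, h.one,
    fun n => by rw [Real.rpow_zero, mul_one]; exact h.cb n, h.conv, h.eq⟩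

/-- no zeros to the right of one -/
lemma raw_zero (h : Raw m r N a b c X) {s : ℂ} (hs : X s = 0) : s.re ≤ 1 := by
  by_contra hcon
  push Not at hcon
  exact (raw0 h).ul.Xne (s := s) (by linarith) hs

lemma raw_strip (h : Raw m r N a b c X) {s : ℂ} (hs : X s = 0) : |s.re - 1 / 2| ≤ 1 / 2 := by
  have h1 := raw_zero h hs
  have h2 : X (1 - conj s) = 0 := by
    obtain ⟨ε, h3, h4⟩ := h.fe
    have h5 := h4 s
    rw [hs] at h5
    have hε : ε ≠ 0 := by
      rintro rfl
      rw [norm_zero] at h3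
      exact zero_ne_one h3
    exact (map_eq_zero _).mp ((mul_eq_zero.mp h5.symm).resolve_left hε)
  have h3 := raw_zero h h2
  simp only [sub_re, one_re, conj_re] at h3
  rw [abs_le]
  constructor <;> linarith

end

/-- the Li coefficients of a function with central line `Re s = 1` -/
noncomputable def liE (Λ : ℂ → ℂ) (A : ℝ) (n : ℕ) : ℝ :=
  ∑' s : ℂ, (analyticOrderNatAt Λ s : ℝ) * (1 - ((s - 1 - A) / (s - 1 + A)) ^ n).re

lemma ord_shift {X : ℂ → ℂ} (hX : Differentiable ℂ X) {k : ℂ} (hk : k ≠ 0) (s : ℂ) :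
    analyticOrderNatAt (fun z => k * X (z - 1 / 2)) (s + 1 / 2) = analyticOrderNatAt X s := by
  have hg : AnalyticAt ℂ (fun z : ℂ => z - 1 / 2) (s + 1 / 2) := by fun_prop
  have hd : deriv (fun z : ℂ => z - 1 / 2) (s + 1 / 2) ≠ 0 := by
    have : HasDerivAt (fun z : ℂ => z - 1 / 2) 1 (s + 1 / 2) := (hasDerivAt_id _).sub_const _
    rw [this.deriv]
    exact one_ne_zero
  have h := analyticOrderAt_comp_of_deriv_ne_zero (f := X) hg hd
  rw [add_sub_cancel_right] at h
  have h2 : AnalyticAt ℂ (fun z => X (z - 1 / 2)) (s + 1 / 2) := by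
    have : Differentiable ℂ (fun z => X (z - 1 / 2)) := hX.comp (by fun_prop)
    exact this.analyticAt _
  have h3 := mult_const hk h2
  unfold H370.mult at h3
  rw [h3]
  unfold analyticOrderNatAt
  have e : (fun z => X (z - 1 / 2)) = X ∘ fun z : ℂ => z - 1 / 2 := rfl
  rw [e, h]

lemma liE_shift {X : ℂ → ℂ} (hX : Differentiable ℂ X) {k : ℂ} (hk : k ≠ 0) (A : ℝ) (n : ℕ) :
    liE (fun z => k * X (z - 1 / 2)) A n = liS X A n := by
  unfold liE liS
  rw [← (Equiv.addRight (1 / 2 : ℂ)).tsum_eq]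
  congr 1
  funext s
  rw [Equiv.coe_addRight, ord_shift hX hk]
  have e1 : s + 1 / 2 - 1 - (A : ℂ) = s - 1 / 2 - A := by ring
  have e2 : s + 1 / 2 - 1 + (A : ℂ) = s - 1 / 2 + A := by ring
  rw [e1, e2]

end Pool.Agent.V11271.LU
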