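import Pool.Agent.V11271.LU.Box

set_option autoImplicit false
set_option linter.unusedSectionVars false
set_option maxHeartbeats 2000000

/-!
# Uniform lower bounds for the number of zeros
-/

open Complex Filter Topology Set MeasureTheory Metric
open scoped ComplexConjugate

namespace Pool.Agent.V11271.LU

open Pool.Agent.Y23 Pool.Agent.Y23.G H353.E

lemma dig_low {w : ℂ} (hw : 0 < w.re) : Real.log ‖w + 2‖ - (1 / w).re - 3 ≤ (logDeriv Gamma w).re := by
  rw [H370.DG.logDeriv_Gamma' hw]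
  have b2 : ‖1 / (w + 1)‖ ≤ 1 := by
    have h := re_le_norm (w + 1)
    simp only [add_re, one_re] at h
    rw [norm_div, norm_one, div_le_iff₀ (by linarith)]
    linarith
  have b3 := (H370.DG.norm_tsum_er hw).trans Z2_le
  have h1 := (abs_le.mp (Complex.abs_re_le_norm (1 / (w + 1)))).2
  have h2 := (abs_le.mp (Complex.abs_re_le_norm (∑' n, H370.DG.er n w))).1
  rw [add_re, sub_re, sub_re, Complex.log_re]
  linarith

/-- the Poisson kernel -/
lemma poisson {x : ℝ} (hx : 0 < x) (y : ℝ) : Integrable (fun v : ℝ => 2 * x / (x ^ 2 + (v + y) ^ 2)) ∧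
    ∫ v : ℝ, 2 * x / (x ^ 2 + (v + y) ^ 2) = 2 * Real.pi := by
  have e : (fun v : ℝ => 2 * x / (x ^ 2 + (v + y) ^ 2)) =
      fun v : ℝ => (fun u : ℝ => 2 / x * (1 + (u / x) ^ 2)⁻¹) (v + y) := by
    funext v
    simp only
    have h1 : 1 + ((v + y) / x) ^ 2 = (x ^ 2 + (v + y) ^ 2) / x ^ 2 := by field_simp
    rw [h1, inv_div]
    field_simp
  have hi : Integrable (fun u : ℝ => 2 / x * (1 + (u / x) ^ 2)⁻¹) :=
    (integrable_inv_one_add_sq.comp_div hx.ne').const_mul _
  rw [e]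
  refine ⟨hi.comp_add_right y, ?_⟩
  rw [integral_add_right_eq_self (fun u : ℝ => 2 / x * (1 + (u / x) ^ 2)⁻¹) y, integral_const_mul,
    Measure.integral_comp_div (fun u : ℝ => (1 + u ^ 2)⁻¹) x, integral_univ_inv_one_add_sq, abs_of_pos hx, smul_eq_mul]
  field_simp

lemma poisson1 {b : ℝ} (hb : 0 < b) : Integrable (fun v : ℝ => 8 * b ^ 2 / (1 + (b * v) ^ 2)) ∧
    ∫ v : ℝ, 8 * b ^ 2 / (1 + (b * v) ^ 2) = 8 * Real.pi * b := by
  have e : (fun v : ℝ => 8 * b ^ 2 / (1 + (b * v) ^ 2)) = fun v : ℝ => 8 * b ^ 2 * (1 + (v * b) ^ 2)⁻¹ := by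
    funext v
    rw [div_eq_mul_inv, mul_comm b v]
  rw [e]
  refine ⟨(integrable_inv_one_add_sq.comp_mul_right' hb.ne').const_mul _, ?_⟩
  rw [integral_const_mul, Measure.integral_comp_mul_right (fun u : ℝ => (1 + u ^ 2)⁻¹) b,
    integral_univ_inv_one_add_sq, abs_of_pos (by positivity), smul_eq_mul]
  field_simp

section

variable [L : LFun]

/-- the half interval -/
noncomputable def Hf (X : ℝ) (j : Fin L.m) : Set ℝ :=
  if 0 ≤ (L.a j).im then Icc (X / 2) X else Icc (-X) (-(X / 2))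

lemma Hf_meas (X : ℝ) (j : Fin L.m) : MeasurableSet (Hf X j) := by
  unfold Hf
  split_ifs <;> exact measurableSet_Icc

lemma Hf_vol {X : ℝ} (hX : 0 ≤ X) (j : Fin L.m) : volume.real (Hf X j) = X / 2 := by
  unfold Hf
  split_ifs
  · rw [Real.volume_real_Icc_of_le (by linarith)]
    ring
  · rw [Real.volume_real_Icc_of_le (by linarith)]
    ring

lemma Hf_fin (X : ℝ) (j : Fin L.m) : volume (Hf X j) ≠ ⊤ := by
  unfold Hf
  split_ifs <;> (rw [Real.volume_Icc]; exact ENNReal.ofReal_ne_top)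

lemma Hf_sub {X : ℝ} (j : Fin L.m) {v : ℝ} (hv : v ∈ Hf X j) : |v| ≤ X := by
  unfold Hf at hv
  rw [abs_le]
  split_ifs at hv
  · constructor <;> linarith [hv.1, hv.2]
  · constructor <;> linarith [hv.1, hv.2]

/-- the logarithmic sizes -/
noncomputable def lj (X : ℝ) (j : Fin L.m) : ℝ := Real.log ((3 + ‖L.a j‖ + X) / 8)

/-- the argument of the digamma function -/
noncomputable def wj (v : ℝ) (j : Fin L.m) : ℂ := ((⟨1 / 2, v⟩ : ℂ) - -L.a j) / 2

lemma wj_re (v : ℝ) (j : Fin L.m) : (wj v j).re = (1 / 2 + (L.a j).re) / 2 := by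
  unfold wj
  rw [show (2 : ℂ) = ((2 : ℝ) : ℂ) by norm_num, Complex.div_ofReal_re]
  simp

lemma wj_im (v : ℝ) (j : Fin L.m) : (wj v j).im = (v + (L.a j).im) / 2 := by
  unfold wj
  rw [show (2 : ℂ) = ((2 : ℝ) : ℂ) by norm_num, Complex.div_ofReal_im]
  simp

lemma wj_inv (v : ℝ) (j : Fin L.m) : (1 / wj v j).re =
    2 * (1 / 2 + (L.a j).re) / ((1 / 2 + (L.a j).re) ^ 2 + (v + (L.a j).im) ^ 2) := by
  have hx : 0 < 1 / 2 + (L.a j).re := by linarith [L.str j]
  rw [Complex.div_re, Complex.normSq_apply, wj_re, wj_im]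
  simp only [one_re, one_im]
  have : 0 < (1 / 2 + (L.a j).re) ^ 2 + (v + (L.a j).im) ^ 2 := by positivity
  have h2 : (1 / 2 + (L.a j).re) / 2 * ((1 / 2 + (L.a j).re) / 2) + (v + (L.a j).im) / 2 * ((v + (L.a j).im) / 2) =
      ((1 / 2 + (L.a j).re) ^ 2 + (v + (L.a j).im) ^ 2) / 4 := by ring
  rw [h2]
  field_simp
  ring

lemma log_w2 (v : ℝ) (j : Fin L.m) : 0 ≤ Real.log ‖wj v j + 2‖ := by
  apply Real.log_nonneg
  have h := re_le_norm (wj v j + 2)
  rw [add_re, re_ofNat, wj_re] at h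
  linarith [L.str j]

lemma log_w2_low {X : ℝ} (hX : 0 ≤ X) {v : ℝ} (j : Fin L.m) (hv : v ∈ Hf X j) :
    lj X j ≤ Real.log ‖wj v j + 2‖ := by
  unfold lj
  apply Real.log_le_log (by positivity)
  have h1 := Complex.abs_re_le_norm (wj v j + 2)
  have h2 := Complex.abs_im_le_norm (wj v j + 2)
  rw [add_re, re_ofNat, wj_re] at h1
  rw [add_im, Complex.im_ofNat, wj_im, add_zero] at h2
  have h3 := Complex.norm_le_abs_re_add_abs_im (L.a j)
  have h4 := L.str j
  have h5 : |(L.a j).im| + X / 2 ≤ |v + (L.a j).im| := by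
    unfold Hf at hv
    split_ifs at hv with h
    · rw [abs_of_nonneg h, abs_of_nonneg (by linarith [hv.1])]
      linarith [hv.1]
    · push Not at h
      rw [abs_of_neg h, abs_of_nonpos (by linarith [hv.2])]
      linarith [hv.2]
  have h6 : |(L.a j).re| ≤ (L.a j).re + 1 := by
    rw [abs_le]
    constructor <;> linarith
  have h7 := (le_abs_self ((1 / 2 + (L.a j).re) / 2 + 2)).trans h1
  rw [abs_div, abs_two] at h2
  have h8 := abs_nonneg (L.a j).im
  linarith

lemma GD_low (v : ℝ) : Real.log L.N + ∑ j, (Real.log ‖wj v j + 2‖ - (1 / wj v j).re - 5) ≤ GD v := by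
  unfold GD GA gaD
  rw [add_re, Complex.ofReal_re, Complex.re_sum, mul_add, Finset.mul_sum]
  have h1 : 2 * (Real.log L.N / 2) = Real.log L.N := by ring
  rw [h1]
  gcongr with j _
  have h2 : 0 < (wj v j).re := by
    rw [wj_re]
    linarith [L.str j]
  have h3 := dig_low h2
  have hlp := logpi
  rw [add_re, Complex.ofReal_re]
  have e : (logDeriv Gamma (((⟨1 / 2, v⟩ : ℂ) - -L.a j) / 2) / 2).re = (logDeriv Gamma (wj v j)).re / 2 := by
    rw [show (2 : ℂ) = ((2 : ℝ) : ℂ) by norm_num, Complex.div_ofReal_re]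
    rfl
  rw [e]
  linarith

/-- the lower bound for the archimedean integral -/
lemma arch_low {X : ℝ} (hX : 5 ≤ X) : (1 / X) * (1 / 4 * qq X - 160 * L.m) ≤
    ∫ v : ℝ, GD v * ‖TT (bx (1 / X)) (v * I)‖ ^ 2 := by
  have hX0 : 0 < X := by linarith
  obtain ⟨b, hb⟩ : ∃ b : ℝ, b = 1 / X := ⟨_, rfl⟩
  have hb0 : 0 < b := by rw [hb]; positivity
  have hb1 : b ≤ 1 / 5 := by
    rw [hb]
    exact one_div_le_one_div_of_le (by norm_num) hX
  have hbX : b * X = 1 := by rw [hb]; field_simp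
  rw [← hb]
  have hN := Real.log_nonneg L.raw.hN
  -- the lower function
  obtain ⟨g, hg⟩ : ∃ g : ℝ → ℝ, g = fun v => b ^ 2 * (Icc (-X) X).indicator (fun _ => Real.log L.N) v +
      ∑ j, (b ^ 2 * (Hf X j).indicator (fun _ => lj X j) v -
        4 * b ^ 2 * (2 * (1 / 2 + (L.a j).re) / ((1 / 2 + (L.a j).re) ^ 2 + (v + (L.a j).im) ^ 2)) -
        5 * (8 * b ^ 2 / (1 + (b * v) ^ 2))) := ⟨_, rfl⟩
  have hint1 : Integrable (fun v => b ^ 2 * (Icc (-X) X).indicator (fun _ => Real.log L.N) v) := by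
    apply Integrable.const_mul
    rw [integrable_indicator_iff measurableSet_Icc]
    exact integrableOn_const (by rw [Real.volume_Icc]; exact ENNReal.ofReal_ne_top)
  have hint2 : ∀ j : Fin L.m, Integrable (fun v => b ^ 2 * (Hf X j).indicator (fun _ => lj X j) v) := by
    intro j
    apply Integrable.const_mul
    rw [integrable_indicator_iff (Hf_meas X j)]
    exact integrableOn_const (Hf_fin X j)
  have hx : ∀ j : Fin L.m, 0 < 1 / 2 + (L.a j).re := fun j => by linarith [L.str j]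
  have hint3 : ∀ j : Fin L.m, Integrable (fun v : ℝ => 4 * b ^ 2 *
      (2 * (1 / 2 + (L.a j).re) / ((1 / 2 + (L.a j).re) ^ 2 + (v + (L.a j).im) ^ 2))) := fun j =>
    (poisson (hx j) (L.a j).im).1.const_mul _
  have hint4 : Integrable (fun v : ℝ => 5 * (8 * b ^ 2 / (1 + (b * v) ^ 2))) := (poisson1 hb0).1.const_mul _
  have hint5 : ∀ j : Fin L.m, Integrable (fun v : ℝ => b ^ 2 * (Hf X j).indicator (fun _ => lj X j) v -
        4 * b ^ 2 * (2 * (1 / 2 + (L.a j).re) / ((1 / 2 + (L.a j).re) ^ 2 + (v + (L.a j).im) ^ 2))) := fun j =>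
    (hint2 j).sub (hint3 j)
  have hint6 : ∀ j : Fin L.m, Integrable (fun v : ℝ => b ^ 2 * (Hf X j).indicator (fun _ => lj X j) v -
        4 * b ^ 2 * (2 * (1 / 2 + (L.a j).re) / ((1 / 2 + (L.a j).re) ^ 2 + (v + (L.a j).im) ^ 2)) -
        5 * (8 * b ^ 2 / (1 + (b * v) ^ 2))) := fun j => (hint5 j).sub hint4
  have hint7 : Integrable (fun v : ℝ => ∑ j : Fin L.m, (b ^ 2 * (Hf X j).indicator (fun _ => lj X j) v -
        4 * b ^ 2 * (2 * (1 / 2 + (L.a j).re) / ((1 / 2 + (L.a j).re) ^ 2 + (v + (L.a j).im) ^ 2)) -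
        5 * (8 * b ^ 2 / (1 + (b * v) ^ 2)))) := integrable_finsetSum _ fun j _ => hint6 j
  have hgint : Integrable g := by
    rw [hg]
    exact hint1.add hint7
  have hgval : ∫ v, g v = b ^ 2 * (2 * X * Real.log L.N) +
      ∑ j : Fin L.m, (b ^ 2 * (X / 2 * lj X j) - 4 * b ^ 2 * (2 * Real.pi) - 5 * (8 * Real.pi * b)) := by
    rw [hg]
    simp only
    rw [integral_add hint1 hint7,
      integral_const_mul, integral_indicator_const _ measurableSet_Icc, Real.volume_real_Icc_of_le (by linarith),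
      integral_finsetSum _ (fun j _ => hint6 j)]
    congr 1
    · rw [smul_eq_mul]
      ring
    · refine Finset.sum_congr rfl fun j _ => ?_
      rw [integral_sub (hint5 j) hint4, integral_sub (hint2 j) (hint3 j), integral_const_mul,
        integral_indicator_const _ (Hf_meas X j), Hf_vol hX0.le, integral_const_mul, (poisson (hx j) _).2,
        integral_const_mul, (poisson1 hb0).2, smul_eq_mul]
  have hGint : Integrable (fun v : ℝ => GD v * ‖TT (bx b) (v * I)‖ ^ 2) := by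
    obtain ⟨C, hC, hGD⟩ := GD_bd (L := L)
    have hH := (bx_Hd (L := L) hb0 (by linarith)).2
    refine (hH.const_mul C).mono' ?_ (Eventually.of_forall fun v => ?_)
    · exact (Continuous.aestronglyMeasurable (GD_cont.mul (gsq_cont bx_Fa)))
    · rw [Real.norm_eq_abs, abs_mul, abs_of_nonneg (sq_nonneg ‖TT (bx b) (v * I)‖), ← mul_assoc]
      exact mul_le_mul_of_nonneg_right (hGD v).1 (sq_nonneg _)
  have hpt : ∀ v : ℝ, g v ≤ GD v * ‖TT (bx b) (v * I)‖ ^ 2 := by
    intro v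
    obtain ⟨N, hNdef⟩ : ∃ N : ℝ, N = ‖TT (bx b) (v * I)‖ ^ 2 := ⟨_, rfl⟩
    have hN0 : 0 ≤ N := by rw [hNdef]; positivity
    have hNup : N ≤ 8 * b ^ 2 / (1 + (b * v) ^ 2) := by rw [hNdef]; exact TT_bx_line hb0 v
    have hN4 : N ≤ 4 * b ^ 2 := by
      have h := TT_bx_norm hb0 (v * I)
      have e : ((v : ℂ) * I).re = 0 := by simp
      rw [e, abs_zero, mul_zero, Real.exp_zero, mul_one] at h
      rw [hNdef]
      calc ‖TT (bx b) (v * I)‖ ^ 2 ≤ (2 * b) ^ 2 := by gcongr
        _ = _ := by ring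
    have hNlow : |v| ≤ X → b ^ 2 ≤ N := by
      intro hv
      rw [hNdef]
      apply TT_bx_low hb0
      rw [hb, one_div_one_div]
      exact hv
    rw [← hNdef]
    have h1 := mul_le_mul_of_nonneg_right (GD_low v) hN0
    refine le_trans ?_ h1
    rw [hg, add_mul, Finset.sum_mul]
    refine add_le_add ?_ (Finset.sum_le_sum fun j _ => ?_)
    · by_cases hv : v ∈ Icc (-X) X
      · rw [indicator_of_mem hv, mul_comm]
        gcongr
        exact hNlow (abs_le.mpr ⟨hv.1, hv.2⟩)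
      · rw [indicator_of_notMem hv, mul_zero]
        positivity
    · have h2 : b ^ 2 * (Hf X j).indicator (fun _ => lj X j) v ≤ Real.log ‖wj v j + 2‖ * N := by
        have h0 := log_w2 v j
        by_cases hv : v ∈ Hf X j
        · rw [indicator_of_mem hv, mul_comm]
          have h4 := log_w2_low hX0.le j hv
          have h5 := hNlow (Hf_sub j hv)
          calc lj X j * b ^ 2 ≤ Real.log ‖wj v j + 2‖ * b ^ 2 := by gcongr
            _ ≤ Real.log ‖wj v j + 2‖ * N := by gcongr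
        · rw [indicator_of_notMem hv, mul_zero]
          positivity
      rw [← wj_inv]
      have h3 : 0 ≤ (1 / wj v j).re := by
        rw [wj_inv]
        have := hx j
        positivity
      have h4 : (1 / wj v j).re * N ≤ 4 * b ^ 2 * (1 / wj v j).re := by nlinarith
      calc b ^ 2 * (Hf X j).indicator (fun _ => lj X j) v - 4 * b ^ 2 * (1 / wj v j).re -
          5 * (8 * b ^ 2 / (1 + (b * v) ^ 2)) ≤ Real.log ‖wj v j + 2‖ * N - (1 / wj v j).re * N - 5 * N := by linarith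
        _ = _ := by ring
  refine le_trans ?_ (integral_mono hgint hGint hpt)
  rw [hgval]
  -- the numerical estimate
  have hm := one_le_m (L := L)
  have hlj : ∀ j : Fin L.m, 1 / 2 * (Real.log (3 + ‖L.a j‖) + Lg X) - 3 ≤ lj X j := by
    intro j
    have hn := norm_nonneg (L.a j)
    unfold lj Lg
    rw [abs_of_pos hX0, Real.log_div (by positivity) (by norm_num)]
    have h1 : Real.log 8 ≤ 3 := by
      have h2 : Real.log 8 = 3 * Real.log 2 := by
        rw [show (8 : ℝ) = 2 ^ 3 by norm_num, Real.log_pow]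
        push_cast
        ring
      have := Real.log_two_lt_d9
      linarith
    have h2 : Real.log (3 + ‖L.a j‖) ≤ Real.log (3 + ‖L.a j‖ + X) := Real.log_le_log (by positivity) (by linarith)
    have h3 : Real.log (3 + X) ≤ Real.log (3 + ‖L.a j‖ + X) := Real.log_le_log (by positivity) (by linarith)
    linarith
  have h1 : ∑ j : Fin L.m, (1 / 2 * (Real.log (3 + ‖L.a j‖) + Lg X) - 3) ≤ ∑ j : Fin L.m, lj X j :=
    Finset.sum_le_sum fun j _ => hlj j
  have h2 : ∑ j : Fin L.m, (1 / 2 * (Real.log (3 + ‖L.a j‖) + Lg X) - 3) =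
      1 / 2 * (∑ j : Fin L.m, Real.log (3 + ‖L.a j‖)) + L.m * (1 / 2 * Lg X) - 3 * L.m := by
    rw [Finset.sum_sub_distrib, ← Finset.mul_sum, Finset.sum_add_distrib, Finset.sum_const, Finset.sum_const,
      Finset.card_univ, Fintype.card_fin, nsmul_eq_mul, nsmul_eq_mul]
    ring
  rw [h2] at h1
  have h3 : ∑ j : Fin L.m, (b ^ 2 * (X / 2 * lj X j) - 4 * b ^ 2 * (2 * Real.pi) - 5 * (8 * Real.pi * b)) =
      b / 2 * (∑ j : Fin L.m, lj X j) - L.m * (8 * Real.pi * b ^ 2 + 40 * Real.pi * b) := by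
    rw [Finset.sum_sub_distrib, Finset.sum_sub_distrib, Finset.sum_const, Finset.sum_const,
      Finset.card_univ, Fintype.card_fin, nsmul_eq_mul, nsmul_eq_mul, ← Finset.mul_sum, ← Finset.mul_sum]
    have : b ^ 2 * (X / 2 * ∑ j : Fin L.m, lj X j) = b / 2 * (b * X) * ∑ j : Fin L.m, lj X j := by ring
    rw [this, hbX]
    ring
  rw [h3]
  have h4 : b ^ 2 * (2 * X * Real.log L.N) = 2 * b * (b * X) * Real.log L.N := by ring
  rw [h4, hbX]
  have h5 : 8 * Real.pi * b ^ 2 + 40 * Real.pi * b ≤ 140 * b := by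
    have h6 := Real.pi_lt_d2
    have h7 := Real.pi_pos
    have h8 : b ^ 2 ≤ b * (1 / 5) := by nlinarith
    nlinarith
  have h6 : (L.m : ℝ) * (8 * Real.pi * b ^ 2 + 40 * Real.pi * b) ≤ L.m * (140 * b) := by gcongr
  have h7 : qq X = Real.log L.N + ∑ j, Real.log (3 + ‖L.a j‖) + L.m * Lg X := rfl
  rw [h7]
  have h8 := mul_le_mul_of_nonneg_left h1 (show 0 ≤ b / 2 by positivity)
  have h9 : 0 ≤ b * Real.log L.N := by positivity
  have h10 : 0 ≤ b * L.m := by positivity
  nlinarith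

end

end Pool.Agent.V11271.LU
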