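import Pool.Agent.V11271.LU.Fin

set_option autoImplicit false
set_option linter.unusedSectionVars false
set_option maxHeartbeats 2000000

/-!
# Li coefficients with a far centre: products of L-functions
-/

open Complex Filter Topology
open scoped ComplexConjugate

namespace Pool.Agent.V11271.LU

open Pool.Agent.Y23 Pool.Agent.Y23.G H353.E

/-- the properties of the zeros of a completed L-function -/
structure ZP (X : ℂ → ℂ) : Prop where
  diff : Differentiable ℂ X
  nz : X (9 / 2) ≠ 0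
  strip : ∀ s : ℂ, X s = 0 → |s.re - 1 / 2| ≤ 1
  fe : ∃ ε : ℂ, ‖ε‖ = 1 ∧ ∀ s : ℂ, X s = ε * conj (X (1 - conj s))
  cnt : ∃ C : ℝ, 0 < C ∧ ∀ t : ℝ, ∀ S : Finset ℂ, (∀ s ∈ S, |s.im - t| ≤ 1) →
    ∑ s ∈ S, (analyticOrderNatAt X s : ℝ) ≤ C * Lg t

/-- the Li coefficients -/
noncomputable def liS (X : ℂ → ℂ) (A : ℝ) (n : ℕ) : ℝ :=
  ∑' s : ℂ, (analyticOrderNatAt X s : ℝ) * (1 - ((s - 1 / 2 - A) / (s - 1 / 2 + A)) ^ n).re

section

variable {X Y : ℂ → ℂ}

lemma ord_top (hd : Differentiable ℂ X) {p : ℂ} (hp : X p ≠ 0) (s : ℂ) : analyticOrderAt X s ≠ ⊤ := by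
  intro h
  rw [analyticOrderAt_eq_top] at h
  have h1 : AnalyticOnNhd ℂ X Set.univ := fun z _ => hd.analyticAt z
  have h2 := h1.eqOn_zero_of_preconnected_of_eventuallyEq_zero isPreconnected_univ (Set.mem_univ s) h
  exact hp (h2 (Set.mem_univ p))

lemma ZP.top (h : ZP X) (s : ℂ) : analyticOrderAt X s ≠ ⊤ := ord_top h.diff h.nz s

lemma ZP.ord_pos (h : ZP X) {s : ℂ} (hs : X s = 0) : 1 ≤ analyticOrderNatAt X s := by
  rw [Nat.one_le_iff_ne_zero]
  intro h0
  have h1 := Nat.cast_analyticOrderNatAt (h.top s)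
  rw [h0] at h1
  exact ((h.diff.analyticAt s).analyticOrderAt_eq_zero.mp h1.symm) hs

lemma ZP.ord_zero (h : ZP X) {s : ℂ} (hs : X s ≠ 0) : analyticOrderNatAt X s = 0 := by
  unfold analyticOrderNatAt
  rw [(h.diff.analyticAt s).analyticOrderAt_eq_zero.mpr hs]
  rfl

lemma ZP.zero_of_ord (h : ZP X) {s : ℂ} (hs : analyticOrderNatAt X s ≠ 0) : X s = 0 := by
  by_contra h1
  exact hs (h.ord_zero h1)

lemma ZP.ord_mul (h : ZP X) (h' : ZP Y) (s : ℂ) :
    analyticOrderNatAt (fun z => X z * Y z) s = analyticOrderNatAt X s + analyticOrderNatAt Y s :=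
  analyticOrderNatAt_mul (h.diff.analyticAt s) (h'.diff.analyticAt s) (h.top s) (h'.top s)

/-- products -/
lemma ZP.mul (h : ZP X) (h' : ZP Y) : ZP fun z => X z * Y z where
  diff := h.diff.mul h'.diff
  nz := mul_ne_zero h.nz h'.nz
  strip s hs := by
    rcases mul_eq_zero.mp hs with h1 | h1
    · exact h.strip s h1
    · exact h'.strip s h1
  fe := by
    obtain ⟨ε, h1, h2⟩ := h.fe
    obtain ⟨ε', h3, h4⟩ := h'.fe
    refine ⟨ε * ε', by rw [norm_mul, h1, h3, one_mul], fun s => ?_⟩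
    rw [h2 s, h4 s, map_mul]
    ring
  cnt := by
    obtain ⟨C, hC, h1⟩ := h.cnt
    obtain ⟨C', hC', h2⟩ := h'.cnt
    refine ⟨C + C', by positivity, fun t S hS => ?_⟩
    have h3 := h1 t S hS
    have h4 := h2 t S hS
    have e : ∑ s ∈ S, (analyticOrderNatAt (fun z => X z * Y z) s : ℝ) =
        ∑ s ∈ S, (analyticOrderNatAt X s : ℝ) + ∑ s ∈ S, (analyticOrderNatAt Y s : ℝ) := by
      rw [← Finset.sum_add_distrib]
      refine Finset.sum_congr rfl fun s _ => ?_
      rw [h.ord_mul h' s]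
      push_cast
      rfl
    rw [e]
    linarith

lemma ZP.refl (h : ZP X) {s : ℂ} (hs : X s = 0) : X (1 - conj s) = 0 := by
  obtain ⟨ε, h1, h2⟩ := h.fe
  have h3 := h2 s
  rw [hs] at h3
  have hε : ε ≠ 0 := by
    rintro rfl
    rw [norm_zero] at h1
    exact zero_ne_one h1
  have h4 := (mul_eq_zero.mp h3.symm).resolve_left hε
  exact (map_eq_zero _).mp h4

lemma mult_const {f : ℂ → ℂ} {k : ℂ} (hk : k ≠ 0) {z : ℂ} (hf : AnalyticAt ℂ f z) :
    H370.mult (fun w => k * f w) z = H370.mult f z := by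
  unfold H370.mult analyticOrderNatAt
  have h1 : analyticOrderAt (fun w => k * f w) z = analyticOrderAt (fun _ : ℂ => k) z + analyticOrderAt f z :=
    analyticOrderAt_mul analyticAt_const hf
  have h2 : analyticOrderAt (fun _ : ℂ => k) z = 0 := analyticAt_const.analyticOrderAt_eq_zero.2 hk
  rw [h1, h2, zero_add]

lemma ZP.ord_refl (h : ZP X) (s : ℂ) : analyticOrderNatAt X (1 - conj s) = analyticOrderNatAt X s := by
  obtain ⟨ε, h1, h2⟩ := h.fe
  have hε : ε ≠ 0 := by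
    rintro rfl
    rw [norm_zero] at h1
    exact zero_ne_one h1
  have e : X = fun z => ε * H370.DL.refl X z := funext h2
  have h3 : H370.mult (fun z => ε * H370.DL.refl X z) s = H370.mult (H370.DL.refl X) s :=
    mult_const hε (H370.DL.analyticAt_refl (h.diff.analyticAt _))
  rw [← e] at h3
  have h4 : H370.mult (H370.DL.refl X) s = analyticOrderNatAt X (1 - conj s) := by
    unfold H370.mult analyticOrderNatAt
    rw [H370.DL.order_refl (h.diff.analyticAt _)]
  rw [← h4, ← h3]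
  rfl

/-- the zeros, shifted to the imaginary axis and scaled -/
noncomputable def zX (X : ℂ → ℂ) (ρ : {s : ℂ // X s = 0}) : ℂ := ((ρ : ℂ) - 1 / 2) / 2

/-- the multiplicities -/
noncomputable def mX (X : ℂ → ℂ) (ρ : {s : ℂ // X s = 0}) : ℝ := (analyticOrderNatAt X (ρ : ℂ) : ℝ)

lemma zX_re (ρ : {s : ℂ // X s = 0}) : (zX X ρ).re = ((ρ : ℂ).re - 1 / 2) / 2 := by
  unfold zX
  rw [show (2 : ℂ) = ((2 : ℝ) : ℂ) by norm_num, Complex.div_ofReal_re]
  simp

lemma zX_im (ρ : {s : ℂ // X s = 0}) : (zX X ρ).im = (ρ : ℂ).im / 2 := by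
  unfold zX
  rw [show (2 : ℂ) = ((2 : ℝ) : ℂ) by norm_num, Complex.div_ofReal_im]
  simp

/-- the reflection -/
noncomputable def rX (h : ZP X) : {s : ℂ // X s = 0} ≃ {s : ℂ // X s = 0} where
  toFun ρ := ⟨1 - conj (ρ : ℂ), h.refl ρ.2⟩
  invFun ρ := ⟨1 - conj (ρ : ℂ), h.refl ρ.2⟩
  left_inv ρ := by ext1; simp
  right_inv ρ := by ext1; simp

lemma locX (h : ZP X) : LI.Loc (zX X) (mX X) := by
  classical
  obtain ⟨C, hC, hcnt⟩ := h.cnt
  refine ⟨2 * C * 4, by positivity, fun n S hS => ?_⟩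
  have hn := abs_nonneg (n : ℝ)
  have hL : ∀ t : ℝ, |t| ≤ 2 * |(n : ℝ)| + 1 → Lg t ≤ 4 * Real.log (2 + |(n : ℝ)|) := by
    intro t ht
    unfold Lg
    have h3 : Real.log (3 + |t|) ≤ Real.log (2 + |(n : ℝ)|) + Real.log 2 := by
      rw [← Real.log_mul (by positivity) (by norm_num)]
      apply Real.log_le_log (by positivity)
      linarith
    have h5 : Real.log 2 ≤ Real.log (2 + |(n : ℝ)|) := Real.log_le_log (by norm_num) (by linarith)
    have h6 := Real.log_two_gt_d9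
    linarith
  have key : ∀ t : ℝ, |t| ≤ 2 * |(n : ℝ)| + 1 → ∀ S' : Finset {s : ℂ // X s = 0}, (∀ ρ ∈ S', |(ρ : ℂ).im - t| ≤ 1) →
      ∑ ρ ∈ S', mX X ρ ≤ C * (4 * Real.log (2 + |(n : ℝ)|)) := by
    intro t ht S' hS'
    have h1 := hcnt t (S'.image fun ρ : {s : ℂ // X s = 0} => (ρ : ℂ)) (by
      intro s hs
      rw [Finset.mem_image] at hs
      obtain ⟨ρ, hρ, rfl⟩ := hs
      exact hS' ρ hρ)
    rw [Finset.sum_image (fun a _ b _ hab => Subtype.ext hab)] at h1
    refine h1.trans ?_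
    have := hL t ht
    gcongr
  have hb : ∀ ρ ∈ S, 2 * (n : ℝ) ≤ (ρ : ℂ).im ∧ (ρ : ℂ).im < 2 * (n : ℝ) + 2 := by
    intro ρ hρ
    have h1 := hS ρ hρ
    rw [zX_im] at h1
    have h2 := Int.floor_le ((ρ : ℂ).im / 2)
    have h3 := Int.lt_floor_add_one ((ρ : ℂ).im / 2)
    rw [h1] at h2 h3
    constructor <;> linarith
  have h1 := key (2 * n + 1) (by
    refine (abs_add_le _ _).trans ?_
    rw [abs_mul, abs_two, abs_one]) S (fun ρ hρ => by
    obtain ⟨g1, g2⟩ := hb ρ hρ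
    rw [abs_le]
    constructor <;> linarith)
  refine h1.trans ?_
  have h5 : 0 ≤ Real.log (2 + |(n : ℝ)|) := Real.log_nonneg (by linarith)
  nlinarith [mul_nonneg hC.le h5]

lemma cfgX (h : ZP X) : LI.Cfg (zX X) (mX X) where
  one_le ρ := by
    unfold mX
    exact_mod_cast h.ord_pos ρ.2
  re_le ρ := by
    rw [zX_re, abs_div, abs_two]
    have := h.strip _ ρ.2
    linarith
  sum s hs := LI.sum_of_loc (fun ρ => Nat.cast_nonneg _) (locX h) s hs
  symm := ⟨rX h, fun ρ => by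
    show ((1 - conj (ρ : ℂ)) - 1 / 2) / 2 = -conj (((ρ : ℂ) - 1 / 2) / 2)
    rw [map_div₀, map_sub, map_div₀, map_one, map_ofNat]
    ring, fun ρ => by
    show ((analyticOrderNatAt X (1 - conj (ρ : ℂ)) : ℕ) : ℝ) = _
    rw [h.ord_refl]
    rfl⟩

lemma supp (h : ZP X) (A : ℝ) (n : ℕ) :
    Function.support (fun s : ℂ => (analyticOrderNatAt X s : ℝ) * (1 - ((s - 1 / 2 - A) / (s - 1 / 2 + A)) ^ n).re) ⊆
      {s : ℂ | X s = 0} := by
  intro s hs
  have h1 := left_ne_zero_of_mul hs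
  exact h.zero_of_ord (by exact_mod_cast h1)

lemma W_half (s : ℂ) (A : ℝ) : LI.W (A / 2) ((s - 1 / 2) / 2) = (s - 1 / 2 - A) / (s - 1 / 2 + A) := by
  unfold LI.W
  have h2 : (2 : ℂ) ≠ 0 := two_ne_zero
  have e1 : (s - 1 / 2) / 2 - ((A / 2 : ℝ) : ℂ) = (s - 1 / 2 - A) / 2 := by push_cast; ring
  have e2 : (s - 1 / 2) / 2 + ((A / 2 : ℝ) : ℂ) = (s - 1 / 2 + A) / 2 := by push_cast; ring
  rw [e1, e2, div_div_div_cancel_right₀ h2]

lemma liS_sub (h : ZP X) (A : ℝ) (n : ℕ) : liS X A n = ∑' ρ : {s : ℂ // X s = 0},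
    (analyticOrderNatAt X (ρ : ℂ) : ℝ) * (1 - (((ρ : ℂ) - 1 / 2 - A) / ((ρ : ℂ) - 1 / 2 + A)) ^ n).re := by
  unfold liS
  exact (tsum_subtype_eq_of_support_subset (supp h A n)).symm

lemma liS_eq (h : ZP X) (A : ℝ) (n : ℕ) : liS X A n = LI.lam (zX X) (mX X) (A / 2) n := by
  rw [liS_sub h]
  unfold LI.lam mX zX
  congr 1
  funext ρ
  rw [W_half]

lemma liS_summable (h : ZP X) {A : ℝ} (hA : 2 ≤ A) (n : ℕ) :
    Summable (fun s : ℂ => (analyticOrderNatAt X s : ℝ) * (1 - ((s - 1 / 2 - A) / (s - 1 / 2 + A)) ^ n).re) := by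
  rw [← Function.Injective.summable_iff (g := ((↑) : {s : ℂ // X s = 0} → ℂ)) Subtype.val_injective]
  · refine ((cfgX h).summable_lam (A := A / 2) (by linarith) n).congr fun ρ => ?_
    unfold mX zX
    rw [W_half]
    rfl
  · intro s hs
    by_contra h1
    have h2 := supp h A n h1
    exact hs ⟨⟨s, h2⟩, rfl⟩

/-- additivity -/
lemma liS_mul (h : ZP X) (h' : ZP Y) {A : ℝ} (hA : 2 ≤ A) (n : ℕ) :
    liS (fun z => X z * Y z) A n = liS X A n + liS Y A n := by
  unfold liS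
  rw [← (liS_summable h hA n).tsum_add (liS_summable h' hA n)]
  congr 1
  funext s
  rw [h.ord_mul h' s]
  push_cast
  ring

/-- a zero-free region from positivity -/
theorem ZP.neg (h : ZP X) {κ : ℝ} (hκ : 0 < κ) (H : ∃ A0 : ℝ, ∀ A : ℝ, A0 ≤ A → ∀ n : ℕ, 1 ≤ n →
    n ≤ κ * A * Real.log A → 0 ≤ liS X A n) {s : ℂ} (hs : X s = 0) : |s.re - 1 / 2| ≤ 1 / κ := by
  obtain ⟨A0, hA0⟩ := H
  have h1 := (cfgX h).neg (κ := 2 * κ) ⟨max (A0 / 2) 1, fun A hA n hn hnA => by
    have hA1 : 1 ≤ A := (le_max_right _ _).trans hA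
    have hA2 : A0 / 2 ≤ A := (le_max_left _ _).trans hA
    have h2 := hA0 (2 * A) (by linarith) n hn (by
      refine hnA.trans ?_
      have h3 : Real.log A ≤ Real.log (2 * A) := Real.log_le_log (by linarith) (by linarith)
      calc 2 * κ * A * Real.log A ≤ 2 * κ * A * Real.log (2 * A) := by gcongr
        _ = _ := by ring)
    rw [liS_eq h, mul_div_cancel_left₀ A two_ne_zero] at h2
    exact h2⟩ ⟨s, hs⟩
  rw [zX_re, abs_div, abs_two] at h1
  rw [le_div_iff₀ hκ]
  linarith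

end

section

variable [L : LFun]

/-- L-functions have the properties -/
lemma zp : ZP L.X where
  diff := Xd
  nz := X_ne (by norm_num)
  strip s hs := X_strip hs
  fe := X_fe
  cnt := by
    obtain ⟨C, hC, h⟩ := X_cnt (L := L)
    refine ⟨C, hC, fun t S hS => ?_⟩
    classical
    have h1 := h t (S.filter fun s => L.X s = 0) (by
      intro s hs
      rw [Finset.mem_filter] at hs
      exact ⟨hs.2, hS s hs.1⟩)
    push_cast at h1
    refine le_trans (le_of_eq ?_) h1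
    symm
    apply Finset.sum_subset (Finset.filter_subset _ _)
    intro s hs hs2
    rw [Finset.mem_filter, not_and] at hs2
    have h2 := hs2 hs
    have h3 : analyticOrderAt L.X s = 0 := (Xd.analyticAt s).analyticOrderAt_eq_zero.mpr h2
    unfold H370.mult analyticOrderNatAt
    rw [h3]
    simp

lemma li_liS (A : ℝ) (n : ℕ) : li A n = liS L.X A n := by
  rw [liS_sub zp]
  rfl

end

/-- the product of a list of L-functions -/
noncomputable def XL' (l : List LFun) (s : ℂ) : ℂ := (l.map fun L => L.X s).prod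

/-- the size of a list of L-functions -/
noncomputable def ML (l : List LFun) : ℝ := (l.map fun L => MM (L := L)).sum

lemma zp_list (l : List LFun) (hl : l ≠ []) : ZP (XL' l) := by
  induction l with
  | nil => exact absurd rfl hl
  | cons L l ih =>
    by_cases h : l = []
    · subst h
      have e : XL' [L] = L.X := by
        funext s
        simp [XL']
      rw [e]
      exact zp
    · have e : XL' (L :: l) = fun s => L.X s * XL' l s := by
        funext s
        simp [XL']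
      rw [e]
      exact (zp (L := L)).mul (ih h)

/-- uniform positivity for products -/
theorem list_pos {h κ : ℝ} (hh : 0 < h) (hκ : 0 < κ) (hhκ : 2 * h * κ < 1) : ∃ c A0 : ℝ, 0 < c ∧ 2 ≤ A0 ∧
    ∀ l : List LFun, l ≠ [] → (∀ s : ℂ, XL' l s = 0 → |s.re - 1 / 2| ≤ h) → ∀ A : ℝ, A0 ≤ A → ∀ n : ℕ, 1 ≤ n →
      n ≤ κ * A * Real.log A → c * (ML l * (n * A)) ≤ liS (XL' l) A n := by
  obtain ⟨c, A0, hc, hA0, H⟩ := li_pos hh hκ hhκ
  refine ⟨c, A0, hc, hA0, ?_⟩
  intro l
  induction l with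
  | nil => intro hl; exact absurd rfl hl
  | cons L l ih =>
    intro _ hz A hA n hn hnA
    have h1 : c * (MM (L := L) * (n * A)) ≤ liS L.X A n := by
      rw [← li_liS]
      refine H (L := L) (fun s hs => hz s ?_) A hA n hn hnA
      simp [XL', hs]
    by_cases hl : l = []
    · subst hl
      have e : XL' [L] = L.X := by
        funext s
        simp [XL']
      have e2 : ML [L] = MM (L := L) := by simp [ML]
      rw [e, e2]
      exact h1
    · have e : XL' (L :: l) = fun s => L.X s * XL' l s := by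
        funext s
        simp [XL']
      have e2 : ML (L :: l) = MM (L := L) + ML l := by simp [ML]
      have h2 := ih hl (fun s hs => hz s (by rw [e]; simp [hs])) A hA n hn hnA
      rw [e, liS_mul zp (zp_list l hl) (hA0.trans hA), e2]
      linarith

end Pool.Agent.V11271.LU
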