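import Pool.Agent.Y23.G.An6

set_option autoImplicit false
set_option linter.unusedSectionVars false
set_option maxHeartbeats 2000000

/-!
# Uniform upper bounds for the number of zeros of L-functions
-/

open Complex Filter Topology Set MeasureTheory Metric
open scoped ComplexConjugate

namespace Pool.Agent.V11271.LU

open Pool.Agent.Y23.G
open Pool.Agent.W169.HF H353.E Pool.Agent.W355.UN Pool.Agent.TH839.NA

variable [L : LFun]

/-- the size of the data of the L-function -/
noncomputable def MM : ℝ := Real.log L.N + ∑ j, Real.log (3 + ‖L.a j‖)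

/-- the size at the height `t` -/
noncomputable def qq (t : ℝ) : ℝ := MM + L.m * Lg t

omit L in
lemma one_le_log3 {x : ℝ} (hx : 0 ≤ x) : 1 ≤ Real.log (3 + x) := by
  have := one_le_Lg x
  unfold Lg at this
  rwa [abs_of_nonneg hx] at this

lemma m_le_MM : (L.m : ℝ) ≤ MM := by
  unfold MM
  have h1 := Real.log_nonneg L.raw.hN
  have h2 : (L.m : ℝ) = ∑ _j : Fin L.m, (1 : ℝ) := by simp
  have h3 : ∑ _j : Fin L.m, (1 : ℝ) ≤ ∑ j, Real.log (3 + ‖L.a j‖) :=
    Finset.sum_le_sum fun j _ => one_le_log3 (norm_nonneg _)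
  linarith

lemma one_le_m : (1 : ℝ) ≤ L.m := by exact_mod_cast L.raw.hm

lemma one_le_MM : 1 ≤ MM := one_le_m.trans m_le_MM

lemma MM_le_qq (t : ℝ) : MM ≤ qq t := by
  unfold qq
  have h1 := one_le_Lg t
  have h2 := one_le_m (L := L)
  nlinarith

lemma m_le_qq (t : ℝ) : (L.m : ℝ) ≤ qq t := m_le_MM.trans (MM_le_qq t)

lemma one_le_qq (t : ℝ) : 1 ≤ qq t := one_le_MM.trans (MM_le_qq t)

lemma qq_le_MM (t : ℝ) : qq t ≤ MM * (1 + Lg t) := by
  unfold qq
  have h1 := one_le_Lg t
  have h2 := m_le_MM (L := L)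
  nlinarith

lemma qq_add (t y : ℝ) : qq (t + y) ≤ qq t + L.m * |y| := by
  unfold qq
  have h1 := Lg_add t y
  have h2 := one_le_m (L := L)
  nlinarith

/-- the logarithmic derivative to the right of the strip -/
lemma XL_bdU {s : ℂ} (h1 : 2 ≤ s.re) (h2 : s.re ≤ 12) : ‖XL s‖ ≤ (12 + Bst (1 / 2)) * qq s.im := by
  have h := ul (L := L)
  have hp : ∀ j, 1 ≤ 1 + ‖-L.a j‖ := fun j => by linarith [norm_nonneg (-L.a j)]
  have hN : 1 ≤ L.N := h.hN
  have hm : (0 : ℝ) ≤ L.m := Nat.cast_nonneg _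
  have hB := Bst_nonneg (1 / 2)
  have e : XL s = logDeriv L.X s := by rw [logDeriv_apply]; rfl
  rw [e, h.logD (by linarith)]
  have b1 := gaD_norm hN h.re_le (s := s) (by linarith)
  have b2 := h.bd (1 / 2) (by norm_num) (by norm_num) s (by linarith)
  have hL := one_le_Lg s.im
  have b3 : Real.log (‖s‖ + 4) ≤ 4 * Lg s.im := by
    have h3 : ‖s‖ + 4 ≤ (3 + |s.im|) ^ 4 := by
      have h4 := Complex.norm_le_abs_re_add_abs_im s
      rw [abs_of_nonneg (by linarith : 0 ≤ s.re)] at h4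
      have h5 := abs_nonneg s.im
      have h6 : (3 + |s.im|) ^ 4 = (3 + |s.im|) ^ 3 * (3 + |s.im|) := by ring
      have h7 : (3 : ℝ) ^ 3 ≤ (3 + |s.im|) ^ 3 := pow_le_pow_left₀ (by norm_num) (by linarith) 3
      nlinarith
    have h4 := Real.log_le_log (by positivity) h3
    rw [Real.log_pow] at h4
    unfold Lg
    push_cast at h4
    linarith
  have b4 : Real.log (L.N * ∏ j, (1 + ‖-L.a j‖)) ≤ MM := by
    have hpp : 0 < ∏ j, (1 + ‖-L.a j‖) := Finset.prod_pos fun j _ => by linarith [hp j]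
    rw [Real.log_mul (by linarith) hpp.ne', Real.log_prod (fun j _ => by linarith [hp j])]
    unfold MM
    gcongr with j _
    · norm_num
    · exact (norm_neg _).le
  refine (norm_add_le _ _).trans ((add_le_add b1 b2).trans ?_)
  have h5 : (L.m : ℝ) * (Real.log (‖s‖ + 4) + 7) ≤ L.m * (11 * Lg s.im) := by
    apply mul_le_mul_of_nonneg_left _ hm
    linarith
  have h6 : (L.m : ℝ) * Bst (1 / 2) ≤ Bst (1 / 2) * (L.m * Lg s.im) := by
    have : (L.m : ℝ) * Bst (1 / 2) * 1 ≤ (L.m : ℝ) * Bst (1 / 2) * Lg s.im := by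
      gcongr
    linarith
  have h7 : qq s.im = MM + L.m * Lg s.im := rfl
  have h8 := one_le_MM (L := L)
  have h9 : 0 ≤ (L.m : ℝ) * Lg s.im := by positivity
  rw [h7]
  nlinarith

lemma X_segU {s v : ℂ}
    (h1 : 2 ≤ s.re) (h2 : s.re ≤ 12) (h3 : 2 ≤ (s + v).re) (h4 : (s + v).re ≤ 12) :
    ‖L.X (s + v)‖ ≤ ‖L.X s‖ * Real.exp ((12 + Bst (1 / 2)) * (qq s.im + L.m * |v.im|) * ‖v‖) := by
  have hB := Bst_nonneg (1 / 2)
  have hre : ∀ τ : ℝ, (s + τ * v).re = s.re + τ * v.re := fun τ => by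
    rw [add_re, Complex.re_ofReal_mul]
  have him : ∀ τ : ℝ, (s + τ * v).im = s.im + τ * v.im := fun τ => by
    rw [add_im, Complex.im_ofReal_mul]
  rw [add_re] at h3 h4
  have hreg : ∀ τ ∈ Icc (0 : ℝ) 1, 2 ≤ (s + τ * v).re ∧ (s + τ * v).re ≤ 12 := by
    intro τ hτ
    rw [hre]
    constructor <;> nlinarith [hτ.1, hτ.2]
  have h := seg (F := L.X) (s := s) (v := v) (ℓ := 0) (K := (12 + Bst (1 / 2)) * (qq s.im + L.m * |v.im|))
    (fun τ _ => Xd _)
    (fun τ hτ => X_ne (by linarith [(hreg τ hτ).1])) (fun τ hτ => by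
      rw [Complex.ofReal_zero, sub_zero, logDeriv_apply]
      refine (XL_bdU (hreg τ hτ).1 (hreg τ hτ).2).trans ?_
      apply mul_le_mul_of_nonneg_left _ (by linarith)
      rw [him]
      refine (qq_add _ _).trans ?_
      rw [abs_mul, abs_of_nonneg hτ.1]
      have := abs_nonneg v.im
      have h5 := one_le_m (L := L)
      have h6 : τ * |v.im| ≤ |v.im| := by nlinarith [hτ.2]
      nlinarith)
  rwa [zero_mul, zero_add] at h

/-- the constant -/
noncomputable def CB : ℝ := 170 * (12 + Bst (1 / 2))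

omit L in
lemma one_le_CB : 1 ≤ CB := by
  have hB := Bst_nonneg (1 / 2)
  unfold CB
  linarith

/-- bounds on discs -/
lemma X_ballU (T : ℝ) : ∀ z ∈ closedBall (ctr T) 6, ‖L.X z‖ ≤ ‖L.X (ctr T)‖ * Real.exp (CB * qq T) := by
  have hB := Bst_nonneg (1 / 2)
  obtain ⟨C, hCdef⟩ : ∃ C : ℝ, C = 12 + Bst (1 / 2) := ⟨_, rfl⟩
  have hC : 1 ≤ C := by rw [hCdef]; linarith
  have hCB : CB = 170 * C := by rw [hCdef]; rfl
  rw [hCB]
  intro z hz
  have hL := one_le_qq (L := L) T
  have hm1 := one_le_m (L := L)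
  have hmq := m_le_qq (L := L) T
  rw [mem_closedBall, dist_eq_norm] at hz
  have hcre : (ctr T).re = 9 / 2 := rfl
  have hcim : (ctr T).im = T := rfl
  have hzre := (Complex.abs_re_le_norm (z - ctr T)).trans hz
  have hzim := (Complex.abs_im_le_norm (z - ctr T)).trans hz
  rw [sub_re, hcre] at hzre
  rw [sub_im, hcim] at hzim
  rw [abs_le] at hzre
  by_cases hre : 9 / 2 ≤ z.re
  · have h := X_segU (L := L) (s := ctr T) (v := z - ctr T) (by rw [hcre]; norm_num) (by rw [hcre]; norm_num)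
      (by rw [add_sub_cancel]; linarith) (by rw [add_sub_cancel]; linarith)
    rw [add_sub_cancel, ← hCdef] at h
    refine h.trans ?_
    apply mul_le_mul_of_nonneg_left _ (norm_nonneg _)
    apply Real.exp_le_exp.2
    rw [sub_im, hcim]
    calc C * (qq T + L.m * |z.im - T|) * ‖z - ctr T‖ ≤ C * (qq T + qq T * 6) * 6 := by gcongr
      _ ≤ 170 * C * qq T := by nlinarith
  · push Not at hre
    have hs : Slow (fun u => L.X ((1 / 2 + T * I) + (1 : ℝ) * u)) := slow_affine L.raw.slow (1 / 2 + T * I) one_pos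
    have hA : ∀ u : ℂ, |u.re| = 4 → ‖L.X ((1 / 2 + T * I) + (1 : ℝ) * u)‖ ≤
        ‖L.X (ctr T)‖ * Real.exp ((2 * C * qq T) * (1 + ‖u‖ ^ 2)) := by
      intro u hu
      have key : ∀ y : ℝ, ‖L.X ⟨9 / 2, T + y⟩‖ ≤ ‖L.X (ctr T)‖ * Real.exp (C * (qq T + L.m * |y|) * |y|) := by
        intro y
        have h := X_segU (L := L) (s := ctr T) (v := ⟨0, y⟩) (by rw [hcre]; norm_num) (by rw [hcre]; norm_num)
          (by rw [add_re, hcre]; norm_num) (by rw [add_re, hcre]; norm_num)
        have e1 : ctr T + (⟨0, y⟩ : ℂ) = ⟨9 / 2, T + y⟩ := by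
          unfold ctr; apply Complex.ext <;> simp
        have e2 : ‖(⟨0, y⟩ : ℂ)‖ = |y| := by
          have : (⟨0, y⟩ : ℂ) = y * I := by apply Complex.ext <;> simp
          rw [this, norm_mul, norm_I, mul_one, Complex.norm_real, Real.norm_eq_abs]
        rw [e1, e2, hcim, ← hCdef] at h
        exact h
      have hbd : ‖L.X ⟨9 / 2, T + u.im⟩‖ ≤ ‖L.X (ctr T)‖ * Real.exp ((2 * C * qq T) * (1 + ‖u‖ ^ 2)) := by
        refine (key u.im).trans ?_
        apply mul_le_mul_of_nonneg_left _ (norm_nonneg _)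
        apply Real.exp_le_exp.2
        have h1 := Complex.abs_im_le_norm u
        have h2 := norm_nonneg u
        have h3 := abs_nonneg u.im
        have h4 : (qq T + L.m * |u.im|) * |u.im| ≤ 2 * qq T * (1 + ‖u‖ ^ 2) := by
          have h5 : |u.im| ^ 2 ≤ ‖u‖ ^ 2 := pow_le_pow_left₀ h3 h1 2
          have h6 : |u.im| ≤ (1 + ‖u‖ ^ 2) := by nlinarith [sq_nonneg (|u.im| - 1)]
          have h7 : qq T * |u.im| ≤ qq T * (1 + ‖u‖ ^ 2) := mul_le_mul_of_nonneg_left h6 (by linarith)
          have h8 : L.m * |u.im| ^ 2 ≤ qq T * ‖u‖ ^ 2 := by gcongr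
          nlinarith
        nlinarith
      rcases eq_or_eq_neg_of_abs_eq hu with h | h
      · have e : (1 / 2 + T * I : ℂ) + (1 : ℝ) * u = ⟨9 / 2, T + u.im⟩ := by
          apply Complex.ext
          · simp [h]; norm_num
          · simp
        rw [e]; exact hbd
      · have e : (1 / 2 + T * I : ℂ) + (1 : ℝ) * u = 1 - conj (⟨9 / 2, T + u.im⟩ : ℂ) := by
          rw [mk_one]
          apply Complex.ext
          · simp [h]; norm_num
          · simp
        rw [e, X_norm]; exact hbd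
    have hst := strip hs (K := 2 * C * qq T) (by nlinarith) (by norm_num : (0 : ℝ) < 4) hA (u := z - (1 / 2 + T * I)) (by
      have e : (z - (1 / 2 + T * I)).re = z.re - 1 / 2 := by simp
      rw [e, abs_le]
      constructor <;> linarith)
    have e : (1 / 2 + T * I : ℂ) + (1 : ℝ) * (z - (1 / 2 + T * I)) = z := by push_cast; ring
    rw [e] at hst
    refine hst.trans ?_
    apply mul_le_mul_of_nonneg_left _ (norm_nonneg _)
    apply Real.exp_le_exp.2
    have hn : ‖z - (1 / 2 + T * I)‖ ^ 2 ≤ 52 := by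
      rw [Complex.sq_norm, Complex.normSq_apply]
      have e1 : (z - (1 / 2 + T * I)).re = z.re - 1 / 2 := by simp
      have e2 : (z - (1 / 2 + T * I)).im = z.im - T := by simp
      rw [e1, e2]
      rw [abs_le] at hzim
      nlinarith
    calc 2 * C * qq T * (1 + 2 * 4 ^ 2 + ‖z - (1 / 2 + T * I)‖ ^ 2) ≤ 2 * C * qq T * (1 + 2 * 4 ^ 2 + 52) := by gcongr
      _ = 170 * C * qq T := by ring

/-- the constant for the number of zeros -/
noncomputable def CN : ℝ := CB / Real.log (6 / 5.2)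

omit L in
lemma CN_pos : 0 < CN := by
  have hq : 0 < Real.log (6 / 5.2) := Real.log_pos (by norm_num)
  have := one_le_CB
  unfold CN
  positivity

/-- the number of zeros, uniform version -/
lemma X_cntU (t : ℝ) (S : Finset ℂ) (hS : ∀ s ∈ S, L.X s = 0 ∧ |s.im - t| ≤ 1) :
    ((∑ s ∈ S, H370.mult L.X s : ℕ) : ℝ) ≤ CN * qq t := by
  have hC := one_le_CB
  have hq : 0 < Real.log (6 / 5.2) := Real.log_pos (by norm_num)
  have h1 : Xn t (ctr t) = 1 := inv_mul_cancel₀ (ctr_ne t)
  have h2 : ∀ z ∈ closedBall (ctr t) 6, ‖Xn t z‖ ≤ Real.exp (CB * qq t) := by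
    intro z hz
    unfold Xn
    have h1 := X_ballU t z hz
    have h2 : 0 < ‖L.X (ctr t)‖ := norm_pos_iff.2 (ctr_ne t)
    rw [norm_mul, norm_inv, inv_mul_le_iff₀ h2]
    exact h1
  have hL := one_le_qq (L := L) t
  have hM : 1 ≤ Real.exp (CB * qq t) := by
    apply Real.one_le_exp
    nlinarith
  have hj := H370.Loc.jensen_mult (f := Xn t) (c := ctr t) (r := 5.2) (R := 6) (M := Real.exp (CB * qq t)) (by norm_num)
    (by norm_num) hM (fun z _ => by
      unfold Xn
      exact (analyticAt_const).mul (Xd.analyticAt z)) (by rw [h1]; exact one_ne_zero) h2 S (fun z hz => by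
      obtain ⟨h3, h4⟩ := hS z hz
      have h5 : z.re ≤ 3 / 2 := by
        by_contra hcon
        push Not at hcon
        exact X_ne hcon h3
      have h6 : -1 / 2 ≤ z.re := by
        by_contra hcon
        push Not at hcon
        refine X_ne (s := 1 - conj z) ?_ (X_zero h3)
        simp
        linarith
      rw [mem_closedBall, dist_eq_norm]
      have h7 : ‖z - ctr t‖ ^ 2 ≤ 5.2 ^ 2 := by
        rw [Complex.sq_norm, Complex.normSq_apply]
        have e1 : (z - ctr t).re = z.re - 9 / 2 := by unfold ctr; simp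
        have e2 : (z - ctr t).im = z.im - t := by unfold ctr; simp
        rw [e1, e2]
        rw [abs_le] at h4
        nlinarith
      exact le_of_sq_le_sq h7 (by norm_num))
  rw [h1, norm_one, div_one, Real.log_exp] at hj
  have e : ∀ z : ℂ, H370.mult (Xn t) z = H370.mult L.X z := fun z =>
    mult_const_mul (inv_ne_zero (ctr_ne t)) (Xd.analyticAt z)
  simp only [e] at hj
  push_cast
  refine hj.trans (le_of_eq ?_)
  unfold CN
  ring

end Pool.Agent.V11271.LU
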