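import Pool.Agent.V11271.LU.Low

set_option autoImplicit false
set_option linter.unusedSectionVars false
set_option maxHeartbeats 2000000

/-!
# Uniform lower bounds for the number of zeros in windows
-/

open Complex Filter Topology Set MeasureTheory Metric
open scoped ComplexConjugate

namespace Pool.Agent.V11271.LU

open Pool.Agent.Y23 Pool.Agent.Y23.G H353.E

lemma fin_zeros [L : LFun] (Y : ℝ) : {ρ : Zt | |(ρ : ℂ).im| ≤ Y}.Finite := by
  have h := (zsummable (0 : ℝ)).tendsto_cofinite_zero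
  have h1 := h.eventually_lt_const (show (0 : ℝ) < 1 / (1 + Y ^ 2) by positivity)
  rw [eventually_cofinite] at h1
  refine h1.subset fun ρ hρ => ?_
  simp only [Set.mem_ofPred_eq, not_lt] at hρ ⊢
  have h2 : (1 : ℝ) ≤ mu (ρ : ℂ) := by exact_mod_cast X_mpos ρ.2
  have h3 : (ρ : ℂ).im ^ 2 ≤ Y ^ 2 := by
    rw [← sq_abs]
    gcongr
  rw [sub_zero]
  calc 1 / (1 + Y ^ 2) ≤ 1 / (1 + (ρ : ℂ).im ^ 2) := by
        apply one_div_le_one_div_of_le (by positivity)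
        linarith
    _ = 1 * (1 / (1 + (ρ : ℂ).im ^ 2)) := by ring
    _ ≤ _ := by gcongr

lemma tail_pt {K y : ℝ} (hK : 1 ≤ K) (hy : K < |y|) :
    1 / (1 + y ^ 2) ≤ 2 / Real.sqrt (1 + K) * (1 / (1 + |y|) ^ (3 / 2 : ℝ)) := by
  have h1 : 0 < 1 + |y| := by positivity
  have h2 : (1 + |y|) ^ 2 ≤ 2 * (1 + y ^ 2) := by
    rw [← sq_abs y]
    nlinarith [sq_nonneg (|y| - 1)]
  have h3 : Real.sqrt (1 + K) ≤ (1 + |y|) ^ (1 / 2 : ℝ) := by
    rw [← Real.sqrt_eq_rpow]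
    apply Real.sqrt_le_sqrt
    linarith
  have h4 : (1 + |y|) ^ 2 = (1 + |y|) ^ (1 / 2 : ℝ) * (1 + |y|) ^ (3 / 2 : ℝ) := by
    rw [← Real.rpow_add h1, ← Real.rpow_natCast]
    norm_num
  have h5 : 0 < Real.sqrt (1 + K) := Real.sqrt_pos.mpr (by linarith)
  rw [div_mul_div_comm, div_le_div_iff₀ (by positivity) (by positivity), one_mul, mul_one]
  calc Real.sqrt (1 + K) * (1 + |y|) ^ (3 / 2 : ℝ) ≤ (1 + |y|) ^ (1 / 2 : ℝ) * (1 + |y|) ^ (3 / 2 : ℝ) := by gcongr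
    _ = (1 + |y|) ^ 2 := h4.symm
    _ ≤ 2 * (1 + y ^ 2) := h2

theorem low_cnt : ∃ K X0 : ℝ, 1 ≤ K ∧ 1 ≤ X0 ∧ ∀ [L : LFun] (X : ℝ), X0 ≤ X → ∃ S : Finset Zt,
    (∀ ρ ∈ S, |(ρ : ℂ).im| ≤ K * X) ∧ X * qq X / 1632 ≤ ∑ ρ ∈ S, (mu (ρ : ℂ) : ℝ) := by
  obtain ⟨C, hC, hw⟩ := wsum
  obtain ⟨K, hKdef⟩ : ∃ K : ℝ, K = (3264 * C + 1) ^ 2 := ⟨_, rfl⟩
  have hK : 1 ≤ K := by rw [hKdef]; nlinarith
  have hsq : 3264 * C ≤ Real.sqrt (1 + K) := by
    apply Real.le_sqrt_of_sq_le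
    rw [hKdef]
    nlinarith
  have hsq0 : 0 < Real.sqrt (1 + K) := by
    apply Real.sqrt_pos.mpr
    linarith
  refine ⟨K, max 5 (Real.exp 1280), hK, (by norm_num : (1 : ℝ) ≤ 5).trans (le_max_left _ _), ?_⟩
  intro L X hX
  have hX5 : 5 ≤ X := (le_max_left _ _).trans hX
  have hXe : Real.exp 1280 ≤ X := (le_max_right _ _).trans hX
  have hX0 : 0 < X := by linarith
  have hm := one_le_m (L := L)
  have hqm : 1280 * L.m ≤ qq X := by
    have h1 : 1280 ≤ Lg X := by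
      unfold Lg
      rw [Real.le_log_iff_exp_le (by positivity), abs_of_pos hX0]
      linarith
    have h2 : L.m * Lg X ≤ qq X := by
      unfold qq
      linarith [one_le_MM (L := L)]
    nlinarith
  have hq1 := one_le_qq (L := L) X
  classical
  obtain ⟨S, hS⟩ : ∃ S : Finset Zt, S = (fin_zeros (L := L) (K * X)).toFinset := ⟨_, rfl⟩
  have hmem : ∀ ρ : Zt, ρ ∈ S ↔ |(ρ : ℂ).im| ≤ K * X := by
    intro ρ
    rw [hS, Set.Finite.mem_toFinset]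
    exact Iff.rfl
  refine ⟨S, fun ρ hρ => (hmem ρ).mp hρ, ?_⟩
  obtain ⟨b, hb⟩ : ∃ b : ℝ, b = 1 / X := ⟨_, rfl⟩
  have hb0 : 0 < b := by rw [hb]; positivity
  have hb3 : b ≤ 1 / 3 := by
    rw [hb]
    exact one_div_le_one_div_of_le (by norm_num) (by linarith)
  have hbX : b * X = 1 := by rw [hb]; field_simp
  obtain ⟨N, hN⟩ : ∃ N : ℝ, N = ∑ ρ ∈ S, (mu (ρ : ℂ) : ℝ) := ⟨_, rfl⟩
  have hN0 : 0 ≤ N := by
    rw [hN]
    exact Finset.sum_nonneg fun ρ _ => Nat.cast_nonneg _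
  have hup : QQ (bx b) ≤ 16 * b ^ 2 * (N + 2 / Real.sqrt (1 + K) * (C * (X * qq X))) := by
    unfold QQ
    refine tsum_le_of_sum_le' (by positivity) fun U => ?_
    have h1 : ∀ ρ ∈ U, (mu (ρ : ℂ) : ℝ) * (GG (bx b) (bx b) ((ρ : ℂ) - 1 / 2)).re ≤
        16 * b ^ 2 * ((mu (ρ : ℂ) : ℝ) * (1 / (1 + ((ρ : ℂ).im / X) ^ 2))) := by
      intro ρ _
      have h2 := GG_bx hb0 hb3 (w := (ρ : ℂ) - 1 / 2) (half_re ρ)
      have e : ((ρ : ℂ) - 1 / 2).im = (ρ : ℂ).im := by simp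
      have e2 : b * (ρ : ℂ).im = (ρ : ℂ).im / X := by rw [hb]; ring
      rw [e, e2] at h2
      calc (mu (ρ : ℂ) : ℝ) * (GG (bx b) (bx b) ((ρ : ℂ) - 1 / 2)).re ≤
          (mu (ρ : ℂ) : ℝ) * (16 * b ^ 2 / (1 + ((ρ : ℂ).im / X) ^ 2)) := by gcongr
        _ = _ := by ring
    refine (Finset.sum_le_sum h1).trans ?_
    rw [← Finset.mul_sum]
    gcongr
    rw [← Finset.sum_filter_add_sum_filter_not U (fun ρ : Zt => ρ ∈ S)]
    gcongr
    · rw [hN]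
      calc ∑ ρ ∈ U.filter (fun ρ : Zt => ρ ∈ S), (mu (ρ : ℂ) : ℝ) * (1 / (1 + ((ρ : ℂ).im / X) ^ 2))
          ≤ ∑ ρ ∈ U.filter (fun ρ : Zt => ρ ∈ S), (mu (ρ : ℂ) : ℝ) := by
            apply Finset.sum_le_sum
            intro ρ _
            have h2 : 1 / (1 + ((ρ : ℂ).im / X) ^ 2) ≤ 1 := by
              rw [div_le_one (by positivity)]
              have := sq_nonneg ((ρ : ℂ).im / X)
              linarith
            have h3 : (0 : ℝ) ≤ mu (ρ : ℂ) := Nat.cast_nonneg _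
            nlinarith
        _ ≤ ∑ ρ ∈ S, (mu (ρ : ℂ) : ℝ) := by
            apply Finset.sum_le_sum_of_subset_of_nonneg
            · intro ρ hρ
              exact (Finset.mem_filter.mp hρ).2
            · intro ρ _ _
              exact Nat.cast_nonneg _
    · calc ∑ ρ ∈ U.filter (fun ρ : Zt => ρ ∉ S), (mu (ρ : ℂ) : ℝ) * (1 / (1 + ((ρ : ℂ).im / X) ^ 2))
          ≤ ∑ ρ ∈ U.filter (fun ρ : Zt => ρ ∉ S), 2 / Real.sqrt (1 + K) *
              ((mu (ρ : ℂ) : ℝ) / (1 + |(ρ : ℂ).im / X|) ^ (3 / 2 : ℝ)) := by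
            apply Finset.sum_le_sum
            intro ρ hρ
            rw [Finset.mem_filter, hmem, not_le] at hρ
            have h2 : K < |(ρ : ℂ).im / X| := by
              rw [abs_div, abs_of_pos hX0, lt_div_iff₀ hX0]
              exact hρ.2
            have h3 := tail_pt hK h2
            calc (mu (ρ : ℂ) : ℝ) * (1 / (1 + ((ρ : ℂ).im / X) ^ 2)) ≤
                (mu (ρ : ℂ) : ℝ) * (2 / Real.sqrt (1 + K) * (1 / (1 + |(ρ : ℂ).im / X|) ^ (3 / 2 : ℝ))) := by gcongr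
              _ = _ := by ring
        _ = 2 / Real.sqrt (1 + K) * ∑ ρ ∈ U.filter (fun ρ : Zt => ρ ∉ S),
              ((mu (ρ : ℂ) : ℝ) / (1 + |(ρ : ℂ).im / X|) ^ (3 / 2 : ℝ)) := by rw [Finset.mul_sum]
        _ ≤ 2 / Real.sqrt (1 + K) * (C * (X * qq X)) := by
            gcongr
            exact hw X (by linarith) _
  have hlow := weil_bx (L := L) hb0 hb3
  have harch := arch_low (L := L) hX5
  rw [← hb] at harch
  have hpi := Real.pi_pos
  have hpi2 := Real.pi_lt_d2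
  have h1 : b * (qq X / 8) ≤ ∫ v : ℝ, GD v * ‖TT (bx b) (v * I)‖ ^ 2 := by
    refine le_trans ?_ harch
    gcongr
    linarith
  have h2 : b * qq X / 51 ≤ 1 / (2 * Real.pi) * ∫ v : ℝ, GD v * ‖TT (bx b) (v * I)‖ ^ 2 := by
    calc b * qq X / 51 ≤ 1 / (2 * Real.pi) * (b * (qq X / 8)) := by
          have h3 : 1 / 51 ≤ 1 / (2 * Real.pi) * (1 / 8) := by
            rw [div_mul_div_comm, one_mul]
            apply one_div_le_one_div_of_le (by positivity)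
            linarith
          have h4 : 0 ≤ b * qq X := by positivity
          calc b * qq X / 51 = 1 / 51 * (b * qq X) := by ring
            _ ≤ 1 / (2 * Real.pi) * (1 / 8) * (b * qq X) := by gcongr
            _ = _ := by ring
      _ ≤ _ := by gcongr
  have h3 : b * qq X / 51 ≤ 16 * b ^ 2 * N + b * qq X / 102 := by
    refine h2.trans (hlow.trans (hup.trans ?_))
    have h4 : 2 / Real.sqrt (1 + K) * C ≤ 1 / 1632 := by
      rw [div_mul_eq_mul_div, div_le_div_iff₀ hsq0 (by norm_num)]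
      linarith
    have h5 : 0 ≤ X * qq X := by positivity
    calc 16 * b ^ 2 * (N + 2 / Real.sqrt (1 + K) * (C * (X * qq X))) =
        16 * b ^ 2 * N + 16 * b ^ 2 * ((2 / Real.sqrt (1 + K) * C) * (X * qq X)) := by ring
      _ ≤ 16 * b ^ 2 * N + 16 * b ^ 2 * (1 / 1632 * (X * qq X)) := by gcongr
      _ = 16 * b ^ 2 * N + (b * X) * (b * qq X) / 102 := by ring
      _ = _ := by rw [hbX, one_mul]
  have h4 : b * qq X / 102 ≤ 16 * b ^ 2 * N := by linarith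
  rw [← hN]
  have h5 : X ^ 2 * (b * qq X / 102) ≤ X ^ 2 * (16 * b ^ 2 * N) := by gcongr
  have h6 : X ^ 2 * (b * qq X / 102) = (b * X) * (X * qq X) / 102 := by ring
  have h7 : X ^ 2 * (16 * b ^ 2 * N) = 16 * (b * X) ^ 2 * N := by ring
  rw [h6, h7, hbX] at h5
  linarith

/-- the number of zeros up to a height -/
theorem tot_cnt : ∃ C : ℝ, 0 < C ∧ ∀ [L : LFun] (T : ℝ), 1 ≤ T → ∀ S : Finset Zt,
    (∀ ρ ∈ S, |(ρ : ℂ).im| ≤ T) → ∑ ρ ∈ S, (mu (ρ : ℂ) : ℝ) ≤ C * (T * qq T) := by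
  obtain ⟨C, hC, hw⟩ := wsum
  refine ⟨4 * C, by positivity, ?_⟩
  intro L T hT S hS
  have hT0 : 0 < T := by linarith
  have h1 : ∀ ρ ∈ S, (mu (ρ : ℂ) : ℝ) ≤ 4 * ((mu (ρ : ℂ) : ℝ) / (1 + |(ρ : ℂ).im / T|) ^ (3 / 2 : ℝ)) := by
    intro ρ hρ
    have h2 : |(ρ : ℂ).im / T| ≤ 1 := by
      rw [abs_div, abs_of_pos hT0, div_le_one hT0]
      exact hS ρ hρ
    have h3 : (1 + |(ρ : ℂ).im / T|) ^ (3 / 2 : ℝ) ≤ 4 := by
      calc (1 + |(ρ : ℂ).im / T|) ^ (3 / 2 : ℝ) ≤ (2 : ℝ) ^ (3 / 2 : ℝ) := by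
            apply Real.rpow_le_rpow (by positivity) (by linarith) (by norm_num)
        _ ≤ (2 : ℝ) ^ (2 : ℝ) := by
            apply Real.rpow_le_rpow_of_exponent_le (by norm_num) (by norm_num)
        _ = 4 := by norm_num
    rw [mul_div_assoc', le_div_iff₀ (by positivity)]
    have h4 : (0 : ℝ) ≤ mu (ρ : ℂ) := Nat.cast_nonneg _
    nlinarith
  refine (Finset.sum_le_sum h1).trans ?_
  rw [← Finset.mul_sum]
  have h2 := hw T hT S
  linarith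

/-- zeros in windows -/
theorem win_cnt : ∃ K c T0 : ℝ, 1 ≤ K ∧ 0 < c ∧ 1 ≤ T0 ∧ ∀ [L : LFun] (T : ℝ), T0 ≤ T → ∃ S : Finset Zt,
    (∀ ρ ∈ S, T ≤ |(ρ : ℂ).im| ∧ |(ρ : ℂ).im| ≤ K * T) ∧ c * MM * T ≤ ∑ ρ ∈ S, (mu (ρ : ℂ) : ℝ) := by
  obtain ⟨K, X0, hK, hX0, hlow⟩ := low_cnt
  obtain ⟨C, hC, htot⟩ := tot_cnt
  obtain ⟨l, hl⟩ : ∃ l : ℝ, l = 3264 * C + 1 := ⟨_, rfl⟩
  have hl1 : 1 ≤ l := by rw [hl]; nlinarith
  refine ⟨K * l, C, X0, by nlinarith, hC, hX0, ?_⟩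
  intro L T hT
  have hT1 : 1 ≤ T := hX0.trans hT
  have hlT : T ≤ l * T := by nlinarith
  obtain ⟨S, hS1, hS2⟩ := hlow (l * T) (by linarith)
  classical
  refine ⟨S.filter fun ρ : Zt => T ≤ |(ρ : ℂ).im|, fun ρ hρ => ?_, ?_⟩
  · rw [Finset.mem_filter] at hρ
    refine ⟨hρ.2, ?_⟩
    have := hS1 ρ hρ.1
    linarith
  · have h1 := Finset.sum_filter_add_sum_filter_not S (fun ρ : Zt => T ≤ |(ρ : ℂ).im|) fun ρ => (mu (ρ : ℂ) : ℝ)
    have h2 := htot T hT1 (S.filter fun ρ : Zt => ¬ T ≤ |(ρ : ℂ).im|) fun ρ hρ => by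
      rw [Finset.mem_filter, not_le] at hρ
      exact hρ.2.le
    have h3 : qq T ≤ qq (l * T) := by
      apply qq_mono
      rw [abs_of_nonneg (by linarith), abs_of_nonneg (by linarith)]
      exact hlT
    have h4 : 2 * C * (T * qq T) ≤ l * T * qq (l * T) / 1632 := by
      have hq := one_le_qq (L := L) T
      rw [le_div_iff₀ (by norm_num)]
      have h5 : 2 * C * 1632 ≤ l := by rw [hl]; linarith
      calc 2 * C * (T * qq T) * 1632 = (2 * C * 1632) * (T * qq T) := by ring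
        _ ≤ l * (T * qq (l * T)) := by gcongr
        _ = _ := by ring
    have h5 := MM_le_qq (L := L) T
    have h6 : C * MM * T ≤ C * (T * qq T) := by
      calc C * MM * T = C * (T * MM) := by ring
        _ ≤ C * (T * qq T) := by gcongr
    linarith

end Pool.Agent.V11271.LU
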